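import Mathlib
import Pool.Agent.K4H34.AL.Comb2
import Pool.Agent.Helper475.ExistsRingequivPow

/-!
# Inductive invariants of the characters with values in a cyclotomic field

An inductive invariant which is trivial on the trivial characters, on the totally odd linear
characters and on the linear characters of order dividing `f` of the unramified extensions of the
totally complex fields has values of finite order on all characters with values in the field of the
`f`-th roots of unity: pass from `f` to `f l`, `l` a prime, by multiplying the invariant with its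
conjugates under the automorphisms of `ℂ` which fix the `f`-th roots of unity.
-/

set_option autoImplicit false
set_option linter.unusedSectionVars false

namespace Pool.Agent.J4.H37.Stark

open NumberField NumberField.ComplexEmbedding Pool.Agent.R389 Pool.Agent.K4H74 Pool.Agent.K4H74.ST
  Pool.Agent.K4H77.SL Pool.Agent.K4H34

variable {M : Type} [CommGroup M]

section pow

variable {G : Type} [Group G]

lemma hpow_mul (ψ : G →* ℂˣ) (a b : ℕ) : ψ ^ (a * b) = (ψ ^ a) ^ b := by
  apply MonoidHom.ext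
  intro g
  simp only [MonoidHom.pow_apply, pow_mul]

lemma hpow_add (ψ : G →* ℂˣ) (a b : ℕ) : ψ ^ (a + b) = ψ ^ a * ψ ^ b := by
  apply MonoidHom.ext
  intro g
  simp only [MonoidHom.pow_apply, MonoidHom.mul_apply, pow_add]

lemma hone_pow (a : ℕ) : (1 : G →* ℂˣ) ^ a = 1 := by
  apply MonoidHom.ext
  intro g
  simp only [MonoidHom.pow_apply, MonoidHom.one_apply, one_pow]

lemma hmul_one (ψ : G →* ℂˣ) : ψ * 1 = ψ := by
  apply MonoidHom.ext
  intro g
  simp only [MonoidHom.mul_apply, MonoidHom.one_apply, mul_one]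

lemma hmul_pow (ψ η : G →* ℂˣ) (a : ℕ) : (ψ * η) ^ a = ψ ^ a * η ^ a := by
  apply MonoidHom.ext
  intro g
  simp only [MonoidHom.pow_apply, MonoidHom.mul_apply, mul_pow]

end pow

/-- the product of the conjugates of an inductive invariant under a family of automorphisms of
`ℂ` -/
noncomputable def conjProd {ι : Type} (s : Finset ι) (τ : ι → ℂ ≃+* ℂ) (A : ArtinInvariant M) :
    ArtinInvariant M where
  val K L _ _ _ _ _ _ χ := ∏ i ∈ s, A.val K L (fun g => τ i (χ g))
  val_add K L _ _ _ _ _ _ χ χ' h h' := by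
    rw [← Finset.prod_mul_distrib]
    refine Finset.prod_congr rfl fun i _ => ?_
    have h1 := A.val_add K L _ _ (SC.isChar_sigma h (τ i).toRingHom)
      (SC.isChar_sigma h' (τ i).toRingHom)
    refine Eq.trans ?_ h1
    congr 1
    funext g
    exact map_add (τ i) _ _
  val_infl K L N _ _ _ _ _ _ _ _ _ _ _ _ χ h := Finset.prod_congr rfl fun i _ =>
    A.val_infl K L N (fun g => τ i (χ g)) (SC.isChar_sigma h (τ i).toRingHom)
  val_ind K F L _ _ _ _ _ _ _ _ _ _ _ _ χ h := Finset.prod_congr rfl fun i _ => by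
    have h1 := A.val_ind K F L (fun g => τ i (χ g)) (SC.isChar_sigma h (τ i).toRingHom)
    rw [← h1]
    congr 1
    funext g
    exact SC.indChar_sigma (τ i).toRingHom χ g

/-- the invariant is trivial on the linear characters of order dividing `f` of the everywhere
unramified extensions of totally complex fields in which the primes above `m` split completely -/
def TrivU (A : ArtinInvariant M) (m f : ℕ) : Prop :=
  ∀ (K L : Type) [Field K] [NumberField K] [Field L] [NumberField L] [Algebra K L] [IsGalois K L],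
    IsTotallyComplex K →
    (∀ P : Ideal (𝓞 L), P.IsMaximal → ∀ g ∈ inertia K P, g = 1) →
    (∀ P : Ideal (𝓞 L), P.IsMaximal → (m : 𝓞 L) ∈ P → ∀ g ∈ decomp K P, g = 1) →
    ∀ ψ : (L ≃ₐ[K] L) →* ℂˣ, ψ ^ f = 1 → A.val K L (lc ψ) = 1

theorem trivU_of_lin {A : ArtinInvariant M} {m f : ℕ} (hA : NC.TrivSplitLinE A m f) :
    TrivU A m f := by
  intro K L _ _ _ _ _ _ hK hin hde ψ hψf
  obtain ⟨E, i1, i2, i3, i4, i5, i6, θ, hθ, hψ⟩ := lin_red K L ψ
  have h1 : ψ = θ.comp (AlgEquiv.restrictNormalHom E) := by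
    ext g
    rw [← hψ]
    rfl
  have hfin : FiniteDimensional K E := Module.Finite.of_restrictScalars_finite ℚ K E
  have hfinL : FiniteDimensional K L := Module.Finite.of_restrictScalars_finite ℚ K L
  have hθf : θ ^ f = 1 := by
    apply MonoidHom.ext
    intro y
    obtain ⟨g, rfl⟩ := AlgEquiv.restrictNormalHom_surjective (F := K) (K₁ := E) L y
    have h2 := DFunLike.congr_fun hψf g
    rw [h1] at h2
    exact h2
  rw [h1, val_lin_res]
  exact hA K E hK (unram_sub hin) (split_sub hde) θ hθ hθf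

lemma val_sum (A : ArtinInvariant M) {K L : Type} [Field K] [NumberField K] [Field L]
    [NumberField L] [Algebra K L] [IsGalois K L] {ι : Type} (s : Finset ι)
    (χ : ι → (L ≃ₐ[K] L) → ℂ) (h : ∀ i ∈ s, IsChar (χ i)) :
    IsChar (∑ i ∈ s, χ i) ∧ A.val K L (∑ i ∈ s, χ i) = ∏ i ∈ s, A.val K L (χ i) := by
  classical
  induction s using Finset.induction_on with
  | empty => exact ⟨by simpa using IsChar.zero, by simpa using val_zero A K L⟩
  | insert a s ha ih =>
    obtain ⟨h1, h2⟩ := ih fun i hi => h i (Finset.mem_insert_of_mem hi)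
    have h3 := h a (Finset.mem_insert_self a s)
    rw [Finset.sum_insert ha, Finset.prod_insert ha, ← h2]
    exact ⟨h3.add h1, A.val_add K L _ _ h3 h1⟩

section kernel

variable {G : Type} [Group G] [Finite G]

/-- induction from the kernel of a linear character of prime order -/
lemma ind_ker (ψ η : G →* ℂˣ) {l : ℕ} (hl : l.Prime) (hη : η ^ l = 1) (hη1 : η ≠ 1) :
    ind η.ker (fun h : η.ker => ((ψ (h : G) : ℂˣ) : ℂ)) =
      ∑ j ∈ Finset.range l, lc (ψ * η ^ j) := by
  classical
  have hfin : Fintype G := Fintype.ofFinite G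
  have hidx : η.ker.index = l := by
    rw [Subgroup.index_ker]
    have h1 : η.range ≤ rootsOfUnity l ℂ := by
      rintro _ ⟨g, rfl⟩
      rw [mem_rootsOfUnity]
      exact DFunLike.congr_fun hη g
    have hne : NeZero l := ⟨hl.ne_zero⟩
    have h2 : Nat.card η.range ∣ l := by
      have h3 := Subgroup.card_dvd_of_le h1
      rwa [Complex.card_rootsOfUnity l] at h3
    rcases (Nat.dvd_prime hl).mp h2 with h3 | h3
    · exfalso
      apply hη1
      have h4 : η.range = ⊥ := Subgroup.eq_bot_of_card_eq _ h3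
      exact MonoidHom.range_eq_bot_iff.mp h4
    · exact h3
  have hcard : (Nat.card G : ℂ) = l * Nat.card η.ker := by
    have h1 := η.ker.index_mul_card
    rw [hidx] at h1
    rw [← h1]
    push_cast
    ring
  have hk0 : (Nat.card η.ker : ℂ) ≠ 0 := by
    exact_mod_cast (Nat.card_pos (α := η.ker)).ne'
  funext g
  rw [Finset.sum_apply]
  have hsum : ∑ j ∈ Finset.range l, lc (ψ * η ^ j) g
      = ((ψ g : ℂˣ) : ℂ) * ∑ j ∈ Finset.range l, ((η g : ℂˣ) : ℂ) ^ j := by
    rw [Finset.mul_sum]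
    refine Finset.sum_congr rfl fun j _ => ?_
    rw [lc, MonoidHom.mul_apply, MonoidHom.pow_apply]
    push_cast
    ring
  rw [hsum, ind, finsum_eq_sum_of_fintype]
  by_cases hg : g ∈ η.ker
  · have h1 : ∀ x : G, ext η.ker (fun h : η.ker => ((ψ (h : G) : ℂˣ) : ℂ)) (x⁻¹ * g * x)
        = ((ψ g : ℂˣ) : ℂ) := by
      intro x
      have hx : x⁻¹ * g * x ∈ η.ker := by
        have := (MonoidHom.normal_ker η).conj_mem g hg x⁻¹
        simpa using this
      rw [ext_mem _ _ hx]
      change ((ψ (x⁻¹ * g * x) : ℂˣ) : ℂ) = _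
      rw [map_mul, map_mul, map_inv, mul_comm (ψ x)⁻¹, mul_assoc, inv_mul_cancel, mul_one]
    have h2 : ((η g : ℂˣ) : ℂ) = 1 := by
      rw [MonoidHom.mem_ker.mp hg]
      rfl
    rw [Finset.sum_congr rfl (fun x _ => h1 x), Finset.sum_const, Finset.card_univ, h2]
    simp only [one_pow, Finset.sum_const, Finset.card_range, nsmul_eq_mul, mul_one]
    rw [← Nat.card_eq_fintype_card, hcard]
    field_simp
  · have h1 : ∀ x : G, ext η.ker (fun h : η.ker => ((ψ (h : G) : ℂˣ) : ℂ)) (x⁻¹ * g * x) = 0 := by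
      intro x
      apply ext_not
      intro hx
      apply hg
      have := (MonoidHom.normal_ker η).conj_mem _ hx x
      have h2 : x * (x⁻¹ * g * x) * x⁻¹ = g := by group
      rwa [h2] at this
    rw [Finset.sum_congr rfl (fun x _ => h1 x), Finset.sum_const_zero, mul_zero]
    have h2 : ((η g : ℂˣ) : ℂ) ≠ 1 := by
      intro h
      apply hg
      rw [MonoidHom.mem_ker]
      exact Units.ext h
    have h3 : ((η g : ℂˣ) : ℂ) ^ l = 1 := by
      rw [← Units.val_pow_eq_pow_val, ← MonoidHom.pow_apply, hη]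
      rfl
    have h4 := mul_geom_sum ((η g : ℂˣ) : ℂ) l
    rw [h3, sub_self] at h4
    rcases mul_eq_zero.mp h4 with h5 | h5
    · exact absurd (sub_eq_zero.mp h5) h2
    · rw [h5, mul_zero]

end kernel

/-- the product over all twists by the powers of a character of prime order -/
lemma prod_twists {A : ArtinInvariant M} {m f l : ℕ} (hl : l.Prime) (hA : TrivU A m f)
    (K L : Type) [Field K] [NumberField K] [Field L] [NumberField L] [Algebra K L] [IsGalois K L]
    (hK : IsTotallyComplex K)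
    (hin : ∀ P : Ideal (𝓞 L), P.IsMaximal → ∀ g ∈ inertia K P, g = 1)
    (hde : ∀ P : Ideal (𝓞 L), P.IsMaximal → (m : 𝓞 L) ∈ P → ∀ g ∈ decomp K P, g = 1)
    (ψ : (L ≃ₐ[K] L) →* ℂˣ) (hψ : ψ ^ (f * l) = 1) :
    ∏ j ∈ Finset.range l, A.val K L (lc (ψ * (ψ ^ f) ^ j)) = 1 := by
  have hfinL : FiniteDimensional K L := Module.Finite.of_restrictScalars_finite ℚ K L
  by_cases hη1 : ψ ^ f = 1
  · refine Finset.prod_eq_one fun j _ => ?_
    rw [hη1, hone_pow, hmul_one]
    exact hA K L hK hin hde ψ hη1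
  · have hη : (ψ ^ f) ^ l = 1 := by rw [← hpow_mul, hψ]
    have h1 := (val_sum A (Finset.range l) (fun j => lc (ψ * (ψ ^ f) ^ j))
      (fun j _ => IsChar.lc _)).2
    rw [← h1, ← ind_ker ψ (ψ ^ f) hl hη hη1, ind_fixed]
    let H := (ψ ^ f).ker
    let F := IntermediateField.fixedField H
    let ψ' : (L ≃ₐ[F] L) →* ℂˣ :=
      (ψ.comp H.subtype).comp (IntermediateField.subgroupEquivAlgEquiv H).symm.toMonoidHom
    have h2 : (fun g : L ≃ₐ[F] L => (fun h : H => ((ψ (h : L ≃ₐ[K] L) : ℂˣ) : ℂ))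
        ((IntermediateField.subgroupEquivAlgEquiv H).symm g)) = lc ψ' := rfl
    rw [h2, A.val_ind K F L (lc ψ') (IsChar.lc ψ')]
    have hF : IsTotallyComplex F := by
      have h3 : ∀ v : InfinitePlace F, v.IsComplex := by
        intro v
        rw [← InfinitePlace.not_isReal_iff_isComplex]
        intro hv
        have h4 : (v.comap (algebraMap K F)).IsReal := InfinitePlace.IsReal.comap _ hv
        exact InfinitePlace.not_isReal_iff_isComplex.mpr (hK.isComplex _) h4
      exact ⟨h3⟩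
    have hinF : ∀ P : Ideal (𝓞 L), P.IsMaximal → ∀ g ∈ inertia F P, g = 1 := by
      intro P hP g hg
      have h3 : g.restrictScalars K ∈ inertia K P := by
        intro x
        exact hg x
      have h4 := hin P hP _ h3
      ext x
      exact AlgEquiv.congr_fun h4 x
    have hdeF : ∀ P : Ideal (𝓞 L), P.IsMaximal → (m : 𝓞 L) ∈ P → ∀ g ∈ decomp F P, g = 1 := by
      intro P hP hm g hg
      have h3 : g.restrictScalars K ∈ decomp K P := by
        intro x
        exact hg x
      have h4 := hde P hP hm _ h3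
      ext x
      exact AlgEquiv.congr_fun h4 x
    refine hA F L hF hinF hdeF ψ' ?_
    apply MonoidHom.ext
    intro g
    have h5 := MonoidHom.mem_ker.mp ((IntermediateField.subgroupEquivAlgEquiv H).symm g).2
    exact h5

/-- an automorphism of `ℂ` with a given action on the roots of unity of order `N` -/
lemma exists_aut {N c : ℕ} (hN : 0 < N) (hc : c.Coprime N) :
    ∃ τ : ℂ ≃+* ℂ, ∀ z : ℂ, z ^ N = 1 → τ z = z ^ c := by
  have hζ := Complex.isPrimitiveRoot_exp N hN.ne'
  obtain ⟨τ, hτ⟩ := H475.exists_ringEquiv_pow N hN _ hζ c hc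
  refine ⟨τ, fun z hz => ?_⟩
  have hne : NeZero N := ⟨hN.ne'⟩
  obtain ⟨i, -, rfl⟩ := hζ.eq_pow_of_pow_eq_one hz
  rw [map_pow, hτ, ← pow_mul, ← pow_mul, mul_comm c i]

/-- **one step**: from `f` to `f l` -/
lemma step {A : ArtinInvariant M} {m f l : ℕ} (hf : 0 < f) (hl : l.Prime) (hA : TrivU A m f) :
    ∃ (s : Finset ℕ) (τ : ℕ → ℂ ≃+* ℂ), s.Nonempty ∧ (∀ i, ∀ z : ℂ, z ^ f = 1 → τ i z = z) ∧
      TrivU (conjProd s τ A) m (f * l) := by
  classical
  have hex : ∀ j : ℕ, ∃ τ : ℂ ≃+* ℂ, (∀ z : ℂ, z ^ f = 1 → τ z = z) ∧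
      ((1 + j * f).Coprime l → ∀ z : ℂ, z ^ (f * l) = 1 → τ z = z ^ (1 + j * f)) := by
    intro j
    by_cases hj : (1 + j * f).Coprime l
    · have h1 : (1 + j * f).Coprime (f * l) := by
        refine Nat.Coprime.mul_right ?_ hj
        rw [Nat.coprime_add_mul_right_left]
        exact Nat.coprime_one_left f
      obtain ⟨τ, hτ⟩ := exists_aut (Nat.mul_pos hf hl.pos) h1
      refine ⟨τ, fun z hz => ?_, fun _ => hτ⟩
      rw [hτ z (by rw [pow_mul, hz, one_pow]), pow_add, pow_one, mul_comm j f, pow_mul, hz,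
        one_pow, mul_one]
    · exact ⟨RingEquiv.refl ℂ, fun z _ => rfl, fun h => absurd h hj⟩
  choose τ hτ1 hτ2 using hex
  let s : Finset ℕ := (Finset.range l).filter fun j => (1 + j * f).Coprime l
  refine ⟨s, τ, ⟨0, ?_⟩, hτ1, ?_⟩
  · rw [Finset.mem_filter, Finset.mem_range]
    refine ⟨hl.pos, ?_⟩
    rw [zero_mul, add_zero]
    exact Nat.coprime_one_left l
  · intro K L _ _ _ _ _ _ hK hin hde ψ hψ
    change ∏ j ∈ s, A.val K L (fun g => τ j (lc ψ g)) = 1
    have hval : ∀ (g : L ≃ₐ[K] L), ((ψ g : ℂˣ) : ℂ) ^ (f * l) = 1 := by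
      intro g
      rw [← Units.val_pow_eq_pow_val, ← MonoidHom.pow_apply, hψ]
      rfl
    have h1 : ∀ j ∈ s, A.val K L (fun g => τ j (lc ψ g)) = A.val K L (lc (ψ * (ψ ^ f) ^ j)) := by
      intro j hj
      congr 1
      funext g
      rw [lc, hτ2 j (Finset.mem_filter.mp hj).2 _ (hval g), lc, ← hpow_mul]
      rw [MonoidHom.mul_apply, MonoidHom.pow_apply, pow_add, pow_one, mul_comm j f]
      push_cast
      rfl
    rw [Finset.prod_congr rfl h1, ← prod_twists hl hA K L hK hin hde ψ hψ]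
    refine Finset.prod_subset (Finset.filter_subset _ _) fun j hj hjs => ?_
    apply hA K L hK hin hde
    have h2 : ¬ (1 + j * f).Coprime l := by
      intro h
      exact hjs (Finset.mem_filter.mpr ⟨hj, h⟩)
    have h3 : l ∣ 1 + j * f := by
      by_contra h
      exact h2 (((Nat.Prime.coprime_iff_not_dvd hl).mpr h).symm)
    obtain ⟨k, hk⟩ := h3
    rw [hmul_pow, ← hpow_mul, ← hpow_mul, ← hpow_add]
    have h4 : f + f * (j * f) = f * l * k := by
      have : f + f * (j * f) = f * (1 + j * f) := by ring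
      rw [this, hk]
      ring
    rw [h4, hpow_mul, hψ, hone_pow]

/-- **the chain**: from `f` to `f k` -/
lemma chain {m : ℕ} : ∀ (k : ℕ), 0 < k → ∀ (A : ArtinInvariant M) (f : ℕ), 0 < f → TrivU A m f →
    ∃ (ι : Type) (s : Finset ι) (τ : ι → ℂ ≃+* ℂ), s.Nonempty ∧
      (∀ i, ∀ z : ℂ, z ^ f = 1 → τ i z = z) ∧ TrivU (conjProd s τ A) m (f * k) := by
  intro k
  induction k using Nat.strong_induction_on with
  | _ k ih =>
    intro hk A f hf hA
    rcases Nat.lt_or_ge 1 k with hk1 | hk1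
    · obtain ⟨l, hl, k', rfl⟩ := Nat.exists_prime_and_dvd hk1.ne'
      have hk' : 0 < k' := by
        rcases Nat.eq_zero_or_pos k' with h0 | h0
        · rw [h0, mul_zero] at hk
          exact absurd hk (lt_irrefl 0)
        · exact h0
      obtain ⟨s, τ, hs, hτ, hA1⟩ := step hf hl hA
      have hlt : k' < l * k' := lt_mul_left hk' hl.one_lt
      obtain ⟨ι, t, τ', ht, hτ', hA2⟩ := ih k' hlt hk' _ (f * l) (Nat.mul_pos hf hl.pos) hA1
      refine ⟨ι × ℕ, t ×ˢ s, fun p => (τ' p.1).trans (τ p.2), ht.product hs, ?_, ?_⟩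
      · intro p z hz
        change τ p.2 (τ' p.1 z) = z
        rw [hτ' p.1 z (by rw [pow_mul, hz, one_pow]), hτ p.2 z hz]
      · intro K L _ _ _ _ _ _ hK hin hde ψ hψ
        have h1 := hA2 K L hK hin hde ψ (by rw [mul_assoc]; exact hψ)
        change ∏ i ∈ t, ∏ j ∈ s, A.val K L (fun g => τ j (τ' i (lc ψ g))) = 1 at h1
        rw [← Finset.prod_product'] at h1
        exact h1
    · have hk2 : k = 1 := le_antisymm hk1 hk
      subst hk2
      refine ⟨Unit, {()}, fun _ => RingEquiv.refl ℂ, Finset.singleton_nonempty _,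
        fun _ z _ => rfl, ?_⟩
      intro K L _ _ _ _ _ _ hK hin hde ψ hψ
      rw [mul_one] at hψ
      change ∏ i ∈ ({()} : Finset Unit), A.val K L (lc ψ) = 1
      rw [Finset.prod_singleton]
      exact hA K L hK hin hde ψ hψ

/-- **The characters with values in the field of the `f`-th roots of unity.** -/
theorem main_field {A : ArtinInvariant M} {m f : ℕ} (hm : m ≠ 0) (hf : 0 < f) (hR : TrivOne A)
    (hO : TrivOdd A) (hA : TrivU A m f) (K L : Type) [Field K] [NumberField K] [Field L]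
    [NumberField L] [Algebra K L] [IsGalois K L] {χ : (L ≃ₐ[K] L) → ℂ} (hχ : IsChar χ)
    (hfix : ∀ τ : ℂ ≃+* ℂ, (∀ z : ℂ, z ^ f = 1 → τ z = z) → ∀ g, τ (χ g) = χ g) :
    ∃ n : ℕ, 0 < n ∧ A.val K L χ ^ n = 1 := by
  obtain ⟨N, i1, i2, i3, i4⟩ := Pool.Agent.K4H34.ST.exists_gal L
  let e := Nat.card (N ≃ₐ[ℚ] N)
  have he : 0 < e := Nat.card_pos
  have heN : ∀ y : N ≃ₐ[ℚ] N, y ^ e = 1 := fun y => pow_card_eq_one'
  obtain ⟨ι, s, τ, hs, hτ, hB⟩ := chain (2 * e) (by omega) A f hf hA
  set B := conjProd s τ A with hBdef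
  have h1 : TrivOne B := by
    intro K' _ _
    change ∏ i ∈ s, A.val K' K' (fun _ => τ i 1) = 1
    refine Finset.prod_eq_one fun i _ => ?_
    rw [map_one]
    exact hR K'
  have h2 : TrivOdd B := by
    intro K' L' _ _ _ _ _ _ hK' ψ hψ
    change ∏ i ∈ s, A.val K' L' (fun g => τ i ((ψ g : ℂˣ) : ℂ)) = 1
    refine Finset.prod_eq_one fun i _ => ?_
    have h3 := hO K' L' hK' ((Units.map (τ i : ℂ →* ℂ)).comp ψ) (by
      intro φ c hc
      rw [MonoidHom.comp_apply, hψ φ c hc]
      apply Units.ext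
      simp)
    exact h3
  have h3 : NC.TrivSplitLinE B m (2 * e) := by
    intro K' L' _ _ _ _ _ _ hK' hin hde ψ hψ hψe
    exact hB K' L' hK' hin hde ψ (by rw [mul_comm, hpow_mul, hψe, hone_pow])
  obtain ⟨n, hn, -, h4⟩ := NC.main_order hm h1 h2 K L N heN h3 hχ
  have h5 : B.val K L χ = A.val K L χ ^ s.card := by
    change ∏ i ∈ s, A.val K L (fun g => τ i (χ g)) = _
    rw [← Finset.prod_const]
    refine Finset.prod_congr rfl fun i _ => ?_
    congr 1
    funext g
    exact hfix (τ i) (hτ i) g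
  refine ⟨s.card * n, Nat.mul_pos hs.card_pos hn, ?_⟩
  rw [pow_mul, ← h5, h4]

end Pool.Agent.J4.H37.Stark
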