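import Mathlib
import Pool.Agent.J4.H37.Stark.Chain

/-!
# Inductive invariants of the characters with values in an abelian field
-/

set_option autoImplicit false
set_option linter.unusedSectionVars false

namespace Pool.Agent.J4.H37.Stark

open NumberField NumberField.ComplexEmbedding Pool.Agent.R389 Pool.Agent.K4H74 Pool.Agent.K4H74.ST
  Pool.Agent.K4H77.SL Pool.Agent.K4H34 Pool.Agent.K4H74.SK Pool.Agent.K4H34.AL

open scoped Classical in
/-- The exponents `t < f` for which some automorphism of `ℂ` which is the identity on `F` raises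
the `f`-th roots of unity to the `t`-th power (the Galois group of `F(ζ_f) / F`). -/
noncomputable def expo (F : Subfield ℂ) (f : ℕ) : Finset ℕ :=
  (Finset.range f).filter fun t =>
    ∃ σ : ℂ ≃+* ℂ, (∀ z ∈ F, σ z = z) ∧ ∀ z : ℂ, z ^ f = 1 → σ z = z ^ t

/-- The sum of the conjugates over `F` of the linear character `ψ` (of order dividing `f`). -/
noncomputable def trace {G : Type} [Group G] (F : Subfield ℂ) (f : ℕ) (ψ : G →* ℂˣ) : G → ℂ :=
  fun g => ∑ t ∈ expo F f, ((ψ g : ℂˣ) : ℂ) ^ t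

lemma mem_expo {F : Subfield ℂ} {f t : ℕ} : t ∈ expo F f ↔ t < f ∧
    ∃ σ : ℂ ≃+* ℂ, (∀ z ∈ F, σ z = z) ∧ ∀ z : ℂ, z ^ f = 1 → σ z = z ^ t := by
  simp [expo]

lemma expo_nonempty (F : Subfield ℂ) {f : ℕ} (hf : 0 < f) : (expo F f).Nonempty := by
  refine ⟨1 % f, mem_expo.mpr ⟨Nat.mod_lt _ hf, RingEquiv.refl ℂ, fun z _ => rfl, fun z hz => ?_⟩⟩
  change z = z ^ (1 % f)
  conv_lhs => rw [← pow_one z, ← Nat.div_add_mod 1 f, pow_add, pow_mul, hz, one_pow, one_mul]

/-- an automorphism of `ℂ` acts on the `f`-th roots of unity by a power -/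
lemma exists_pow (σ : ℂ ≃+* ℂ) {f : ℕ} (hf : 0 < f) :
    ∃ c : ℕ, c.Coprime f ∧ ∀ z : ℂ, z ^ f = 1 → σ z = z ^ c := by
  have hζ := Complex.isPrimitiveRoot_exp f hf.ne'
  have hne : NeZero f := ⟨hf.ne'⟩
  have h1 : IsPrimitiveRoot (σ (Complex.exp (2 * Real.pi * Complex.I / f))) f :=
    hζ.map_of_injective σ.injective
  obtain ⟨c, -, hc, h2⟩ := (hζ.isPrimitiveRoot_iff).mp h1
  refine ⟨c, hc, fun z hz => ?_⟩
  obtain ⟨i, -, rfl⟩ := hζ.eq_pow_of_pow_eq_one hz
  rw [map_pow, ← h2, ← pow_mul, ← pow_mul, mul_comm c i]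

lemma trace_fixed {G : Type} [Group G] (F : Subfield ℂ) {f : ℕ} (hf : 0 < f) (ψ : G →* ℂˣ)
    (hψ : ψ ^ f = 1) (σ : ℂ ≃+* ℂ) (hσ : ∀ z ∈ F, σ z = z) (g : G) :
    σ (trace F f ψ g) = trace F f ψ g := by
  obtain ⟨c, hc, h1⟩ := exists_pow σ hf
  have hval : ((ψ g : ℂˣ) : ℂ) ^ f = 1 := by
    rw [← Units.val_pow_eq_pow_val, ← MonoidHom.pow_apply, hψ]
    rfl
  set z : ℂ := ((ψ g : ℂˣ) : ℂ) with hz
  have hmod : ∀ a : ℕ, z ^ (a % f) = z ^ a := by
    intro a
    conv_rhs => rw [← Nat.div_add_mod a f, pow_add, pow_mul, hval, one_pow, one_mul]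
  have hmaps : ∀ t ∈ expo F f, (c * t) % f ∈ expo F f := by
    intro t ht
    obtain ⟨-, τ, h2, h3⟩ := mem_expo.mp ht
    refine mem_expo.mpr ⟨Nat.mod_lt _ hf, σ.trans τ, fun w hw => ?_, fun w hw => ?_⟩
    · change τ (σ w) = w
      rw [hσ w hw, h2 w hw]
    · change τ (σ w) = _
      rw [h1 w hw, map_pow, h3 w hw, ← pow_mul]
      conv_lhs => rw [mul_comm t c, ← Nat.div_add_mod (c * t) f, pow_add, pow_mul, hw, one_pow,
        one_mul]
  have hinj : ∀ t ∈ expo F f, ∀ t' ∈ expo F f, (c * t) % f = (c * t') % f → t = t' := by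
    intro t ht t' ht' h
    have h2 : c * t ≡ c * t' [MOD f] := h
    have h3 : t ≡ t' [MOD f] := Nat.ModEq.cancel_left_of_coprime hc.symm h2
    have h4 : t % f = t' % f := h3
    rwa [Nat.mod_eq_of_lt (mem_expo.mp ht).1, Nat.mod_eq_of_lt (mem_expo.mp ht').1] at h4
  change σ (∑ t ∈ expo F f, z ^ t) = ∑ t ∈ expo F f, z ^ t
  rw [map_sum]
  refine Finset.sum_bij (fun t _ => (c * t) % f) hmaps (fun t ht t' ht' h => hinj t ht t' ht' h)
    ?_ ?_
  · intro b hb
    have hsurj := Finset.surj_on_of_inj_on_of_card_le (s := expo F f) (t := expo F f)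
      (fun t _ => (c * t) % f) hmaps (fun t t' ht ht' h => hinj t ht t' ht' h) le_rfl b hb
    obtain ⟨a, ha, h⟩ := hsurj
    exact ⟨a, ha, h.symm⟩
  · intro t ht
    rw [map_pow, h1 z hval, hmod, ← pow_mul]

/-- an element which is algebraic over the countable field `F` and fixed by all automorphisms of
`ℂ` which are the identity on `F` is in `F` -/
lemma mem_of_fixed {F : Subfield ℂ} (hFc : (F : Set ℂ).Countable) {z : ℂ} (hz : IsAlgebraic F z)
    (h : ∀ σ : ℂ ≃+* ℂ, (∀ x ∈ F, σ x = x) → σ z = z) : z ∈ F := by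
  have hint : IsIntegral F z := hz.isIntegral
  have hirr := minpoly.irreducible hint
  have hfact : Fact (Irreducible (minpoly F z)) := ⟨hirr⟩
  by_contra hzF
  have hdeg : 2 ≤ (minpoly F z).natDegree := by
    by_contra hlt
    have h1 : (minpoly F z).natDegree = 1 := by
      have := hirr.natDegree_pos
      omega
    have h2 : z ∈ (algebraMap F ℂ).range := minpoly.natDegree_eq_one_iff.mp h1
    obtain ⟨y, hy⟩ := h2
    exact hzF (hy ▸ y.2)
  -- another root
  obtain ⟨w, hw, hwz⟩ : ∃ w ∈ (minpoly F z).rootSet ℂ, w ≠ z := by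
    by_contra hcon
    push Not at hcon
    have h1 : (minpoly F z).rootSet ℂ ⊆ {z} := fun w hw => hcon w hw
    have h2 : Fintype.card ((minpoly F z).rootSet ℂ) = (minpoly F z).natDegree :=
      Polynomial.card_rootSet_eq_natDegree (minpoly.irreducible hint).separable
        (IsAlgClosed.splits _)
    have h3 : Fintype.card ((minpoly F z).rootSet ℂ) ≤ 1 := by
      rw [Fintype.card_le_one_iff]
      rintro ⟨a, ha⟩ ⟨b, hb⟩
      have ha' := h1 ha
      have hb' := h1 hb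
      rw [Set.mem_singleton_iff] at ha' hb'
      simp [ha', hb']
    omega
  have hw0 : (minpoly F z).eval₂ (algebraMap F ℂ) w = 0 := by
    have := (Polynomial.mem_rootSet.mp hw).2
    rwa [Polynomial.aeval_def] at this
  have hz0 : (minpoly F z).eval₂ (algebraMap F ℂ) z = 0 := by
    have := minpoly.aeval F z
    rwa [Polynomial.aeval_def] at this
  let R := AdjoinRoot (minpoly F z)
  let a : R →+* ℂ := AdjoinRoot.lift (algebraMap F ℂ) z hz0
  let b : R →+* ℂ := AdjoinRoot.lift (algebraMap F ℂ) w hw0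
  have hR : Cardinal.mk R ≤ Cardinal.aleph0 := by
    have hFc' : Countable F := hFc.to_subtype
    have h1 : Countable (Polynomial F) := by
      rw [← Cardinal.mk_le_aleph0_iff]
      refine Polynomial.cardinalMk_le_max.trans ?_
      rw [max_le_iff]
      exact ⟨Cardinal.mk_le_aleph0_iff.mpr hFc', le_rfl⟩
    exact Cardinal.mk_le_aleph0_iff.mpr
      (AdjoinRoot.mk_surjective (g := minpoly F z)).countable
  obtain ⟨σ, hσ⟩ := H475.exists_ringEquiv_pow_aux2 hR a b
  have h1 : σ z = w := by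
    have := hσ (AdjoinRoot.root _)
    have h2 : a (AdjoinRoot.root _) = z := AdjoinRoot.lift_root _
    have h3 : b (AdjoinRoot.root _) = w := AdjoinRoot.lift_root _
    rwa [h2, h3] at this
  have h2 : ∀ x ∈ F, σ x = x := by
    intro x hx
    have := hσ (AdjoinRoot.of _ ⟨x, hx⟩)
    have h3 : a (AdjoinRoot.of _ ⟨x, hx⟩) = x := AdjoinRoot.lift_of _
    have h4 : b (AdjoinRoot.of _ ⟨x, hx⟩) = x := AdjoinRoot.lift_of _
    rwa [h3, h4] at this
  exact hwz (h1 ▸ h σ h2)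

lemma fixed_of_closure {F : Subfield ℂ} {f : ℕ} (hF : F ≤ Subfield.closure {z : ℂ | z ^ f = 1})
    {τ : ℂ ≃+* ℂ} (hτ : ∀ z : ℂ, z ^ f = 1 → τ z = z) {z : ℂ} (hz : z ∈ F) : τ z = z := by
  have h1 := hF hz
  clear hz
  induction h1 using Subfield.closure_induction with
  | mem x hx => exact hτ x hx
  | one => exact map_one τ
  | add x y _ _ hx hy => rw [map_add, hx, hy]
  | neg x _ hx => rw [map_neg, hx]
  | inv x _ hx => rw [map_inv₀, hx]
  | mul x y _ _ hx hy => rw [map_mul, hx, hy]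

lemma algebraic_of_closure {F : Subfield ℂ} {f : ℕ} (hf : 0 < f)
    (hF : F ≤ Subfield.closure {z : ℂ | z ^ f = 1}) {z : ℂ} (hz : z ∈ F) : IsAlgebraic ℚ z := by
  have h1 := hF hz
  clear hz
  induction h1 using Subfield.closure_induction with
  | mem x hx =>
    refine IsAlgebraic.of_pow hf ?_
    have hx' : x ^ f = 1 := hx
    rw [hx']
    exact isAlgebraic_one
  | one => exact isAlgebraic_one
  | add x y _ _ hx hy => exact hx.add hy
  | neg x _ hx => exact hx.neg
  | inv x _ hx => exact hx.inv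
  | mul x y _ _ hx hy => exact hx.mul hy

/-- the sum of the conjugates has its values in `F` -/
theorem trace_mem {G : Type} [Group G] {F : Subfield ℂ} {f : ℕ} (hf : 0 < f)
    (hF : F ≤ Subfield.closure {z : ℂ | z ^ f = 1}) (ψ : G →* ℂˣ) (hψ : ψ ^ f = 1) (g : G) :
    trace F f ψ g ∈ F := by
  have hFc : (F : Set ℂ).Countable :=
    (Algebraic.countable ℚ ℂ).mono fun z hz => algebraic_of_closure hf hF hz
  refine mem_of_fixed hFc ?_ fun σ hσ => trace_fixed F hf ψ hψ σ hσ g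
  have hval : ((ψ g : ℂˣ) : ℂ) ^ f = 1 := by
    rw [← Units.val_pow_eq_pow_val, ← MonoidHom.pow_apply, hψ]
    rfl
  have h0 : IsAlgebraic F ((ψ g : ℂˣ) : ℂ) := by
    refine IsAlgebraic.of_pow hf ?_
    rw [hval]
    exact isAlgebraic_one
  unfold trace
  have h1 : ∀ s : Finset ℕ, IsAlgebraic F (∑ t ∈ s, ((ψ g : ℂˣ) : ℂ) ^ t) := by
    intro s
    induction s using Finset.induction_on with
    | empty =>
      rw [Finset.sum_empty]
      exact isAlgebraic_zero
    | insert a s ha ih =>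
      rw [Finset.sum_insert ha]
      exact (h0.pow a).add ih
  exact h1 _

lemma trace_eq {G : Type} [Group G] (F : Subfield ℂ) (f : ℕ) (ψ : G →* ℂˣ) :
    trace F f ψ = ∑ t ∈ expo F f, lc (ψ ^ t) := by
  funext g
  rw [Finset.sum_apply]
  refine Finset.sum_congr rfl fun t _ => ?_
  rw [lc, MonoidHom.pow_apply, Units.val_pow_eq_pow_val]

variable {M : Type} [CommGroup M]

/-- the sum of the conjugates is a character -/
lemma trace_isChar {K L : Type} [Field K] [NumberField K] [Field L]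
    [NumberField L] [Algebra K L] [IsGalois K L] (F : Subfield ℂ) (f : ℕ)
    (ψ : (L ≃ₐ[K] L) →* ℂˣ) : IsChar (trace F f ψ) := by
  have hfinL : FiniteDimensional K L := Module.Finite.of_restrictScalars_finite ℚ K L
  rw [trace_eq]
  generalize expo F f = s
  classical
  induction s using Finset.induction_on with
  | empty =>
    rw [Finset.sum_empty]
    exact IsChar.zero
  | insert a s ha ih =>
    rw [Finset.sum_insert ha]
    exact (IsChar.lc _).add ih

/-- **The characters with values in the abelian field `F`.** -/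
theorem main_trace {A : ArtinInvariant M} {m f : ℕ} (hm : m ≠ 0) (hf : 0 < f) {F : Subfield ℂ}
    (hF : F ≤ Subfield.closure {z : ℂ | z ^ f = 1}) (hR : TrivOne A)
    (hO : TrivOdd A)
    (hA : ∀ (K L : Type) [Field K] [NumberField K] [Field L] [NumberField L] [Algebra K L]
      [IsGalois K L], IsTotallyComplex K →
      (∀ P : Ideal (𝓞 L), P.IsMaximal → ∀ g ∈ inertia K P, g = 1) →
      (∀ P : Ideal (𝓞 L), P.IsMaximal → (m : 𝓞 L) ∈ P → ∀ g ∈ decomp K P, g = 1) →
      ∀ ψ : (L ≃ₐ[K] L) →* ℂˣ, Function.Injective ψ → ψ ^ f = 1 →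
        A.val K L (trace F f ψ) = 1)
    (K L : Type) [Field K] [NumberField K] [Field L]
    [NumberField L] [Algebra K L] [IsGalois K L] {χ : (L ≃ₐ[K] L) → ℂ} (hχ : IsChar χ)
    (hval : ∀ g, χ g ∈ F) :
    ∃ n : ℕ, 0 < n ∧ A.val K L χ ^ n = 1 := by
  have hex : ∀ t : ℕ, ∃ σ : ℂ ≃+* ℂ, (∀ z ∈ F, σ z = z) ∧
      (t ∈ expo F f → ∀ z : ℂ, z ^ f = 1 → σ z = z ^ t) := by
    intro t
    by_cases ht : t ∈ expo F f
    · obtain ⟨-, σ, h1, h2⟩ := mem_expo.mp ht
      exact ⟨σ, h1, fun _ => h2⟩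
    · exact ⟨RingEquiv.refl ℂ, fun z _ => rfl, fun h => absurd h ht⟩
  choose τ hτ1 hτ2 using hex
  set B := conjProd (expo F f) τ A with hBdef
  have h1 : TrivOne B := by
    intro K' _ _
    change ∏ i ∈ expo F f, A.val K' K' (fun _ => τ i 1) = 1
    refine Finset.prod_eq_one fun i _ => ?_
    rw [map_one]
    exact hR K'
  have h2 : TrivOdd B := by
    intro K' L' _ _ _ _ _ _ hK' ψ hψ
    change ∏ i ∈ expo F f, A.val K' L' (fun g => τ i ((ψ g : ℂˣ) : ℂ)) = 1
    refine Finset.prod_eq_one fun i _ => ?_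
    have h3 := hO K' L' hK' ((Units.map (τ i : ℂ →* ℂ)).comp ψ) (by
      intro φ c hc
      rw [MonoidHom.comp_apply, hψ φ c hc]
      apply Units.ext
      simp)
    exact h3
  have h3 : NC.TrivSplitLinE B m f := by
    intro K' L' _ _ _ _ _ _ hK' hin hde ψ hψ hψf
    have hfinL : FiniteDimensional K' L' := Module.Finite.of_restrictScalars_finite ℚ K' L'
    rw [← hA K' L' hK' hin hde ψ hψ hψf, trace_eq,
      (val_sum A (expo F f) (fun t => lc (ψ ^ t)) fun t _ => IsChar.lc _).2]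
    change ∏ i ∈ expo F f, A.val K' L' (fun g => τ i ((ψ g : ℂˣ) : ℂ)) = _
    refine Finset.prod_congr rfl fun t ht => ?_
    congr 1
    funext g
    have hvg : ((ψ g : ℂˣ) : ℂ) ^ f = 1 := by
      rw [← Units.val_pow_eq_pow_val, ← MonoidHom.pow_apply, hψf]
      rfl
    rw [hτ2 t ht _ hvg, lc, MonoidHom.pow_apply, Units.val_pow_eq_pow_val]
  obtain ⟨n, hn, h4⟩ := main_field hm hf h1 h2 (trivU_of_lin h3) K L hχ
    (fun τ' hτ' g => fixed_of_closure hF hτ' (hval g))
  have h5 : B.val K L χ = A.val K L χ ^ (expo F f).card := by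
    change ∏ i ∈ expo F f, A.val K L (fun g => τ i (χ g)) = _
    rw [← Finset.prod_const]
    refine Finset.prod_congr rfl fun i _ => ?_
    congr 1
    funext g
    exact hτ1 i _ (hval g)
  refine ⟨(expo F f).card * n, Nat.mul_pos (expo_nonempty F hf).card_pos hn, ?_⟩
  rw [pow_mul, ← h5, h4]

/-- an inductive invariant of a character with values in `F` to a suitable power is a product of
powers of its values on the family -/
theorem power_form3 (A : ArtinInvariant M) (T : Pair → Prop) {m f : ℕ}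
    (hm : m ≠ 0) (hf : 0 < f) {F : Subfield ℂ}
    (hF : F ≤ Subfield.closure {z : ℂ | z ^ f = 1})
    (h1 : ∀ (K : Type) [Field K] [NumberField K], T ⟨⟨K, K⟩, fun _ => 1⟩)
    (h2 : ∀ E : Ext, IsTotallyReal E.K → ∀ ψ : G E →* ℂˣ, (∀ t : G E, IsCC t → ψ t = -1) →
      T ⟨E, lin ψ⟩)
    (h3 : ∀ E : Ext, IsTotallyComplex E.K →
      (∀ P : Ideal (𝓞 E.L), P.IsMaximal → (∀ g ∈ K4H77.SL.inertia E.K P, g = 1) ∧
        ((m : 𝓞 E.L) ∈ P → ∀ g ∈ K4H77.SL.decomp E.K P, g = 1)) →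
      ∀ ψ : G E →* ℂˣ, Function.Injective ψ → ψ ^ f = 1 → T ⟨E, trace F f ψ⟩)
    {E : Ext} {χ : G E → ℂ} (hχ : IsChr χ) (hval : ∀ g, χ g ∈ F) :
    ∃ n : ℕ, 0 < n ∧ ∃ (r : ℕ) (x : Fin r → Pair) (k : Fin r → ℤ), (∀ i, T (x i)) ∧
      pval A ⟨E, χ⟩ ^ n = ∏ i, pval A (x i) ^ k i := by
  let P : Subgroup M := Subgroup.closure {y : M | ∃ x : Pair, T x ∧ y = pval A x}
  let B : ArtinInvariant (M ⧸ P) := mapInv (QuotientGroup.mk' P) A
  have hB : ∀ x : Pair, T x → B.val x.1.K x.1.L x.2 = 1 := by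
    intro x hx
    exact (QuotientGroup.eq_one_iff (N := P) _).mpr (Subgroup.subset_closure ⟨x, hx, rfl⟩)
  have i1 : TrivOne B := by
    intro K _ _
    exact hB _ (h1 K)
  have i3 : TrivOdd B := by
    intro K L _ _ _ _ _ _ hK ψ hψ
    refine hB _ (h2 ⟨K, L⟩ hK ψ ?_)
    rintro t ⟨φ, hφ⟩
    refine hψ φ t ?_
    ext x
    exact (hφ x).symm
  obtain ⟨n, hn, h5⟩ := main_trace (A := B) (F := F) hm hf hF i1 i3
    (fun K L _ _ _ _ _ _ hK hin hde ψ hψ hψf =>
      hB _ (h3 ⟨K, L⟩ hK (fun P hP => ⟨hin P hP, fun hm => hde P hP hm⟩) ψ hψ hψf))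
    E.K E.L (isChr_iff.mp hχ) hval
  refine ⟨n, hn, closure_form A T ?_⟩
  have h6 : B.val E.K E.L χ = QuotientGroup.mk' P (pval A ⟨E, χ⟩) := rfl
  rw [h6, ← map_pow] at h5
  exact (QuotientGroup.eq_one_iff _).mp h5

end Pool.Agent.J4.H37.Stark
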