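import Mathlib

/-!
# Two independent characters of prime order
-/

set_option autoImplicit false
set_option linter.unusedSectionVars false

namespace Pool.Agent.J4.H37.Stark

section grp

variable {P : Type} [CommGroup P] [Finite P]

/-- few characters are trivial on a subgroup of small index -/
lemma card_triv_le (U : Subgroup P) (Λ : Finset (P →* ℂˣ)) (h : ∀ l ∈ Λ, ∀ u ∈ U, l u = 1) :
    Λ.card ≤ U.index := by
  classical
  have hfin : Finite (P ⧸ U) := inferInstance
  have h1 : Nat.card ((P ⧸ U) →* ℂˣ) = U.index := by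
    rw [CommGroup.card_monoidHom_of_hasEnoughRootsOfUnity]
    rfl
  have hfin2 : Finite ((P ⧸ U) →* ℂˣ) := by
    apply Nat.finite_of_card_ne_zero
    rw [h1]
    exact Subgroup.index_ne_zero_of_finite
  rw [← h1]
  have h2 : ∀ l : Λ, ∃ m : (P ⧸ U) →* ℂˣ, ∀ x : P, m (QuotientGroup.mk' U x) = l.1 x := by
    intro l
    refine ⟨QuotientGroup.lift U l.1 (h l.1 l.2), fun x => ?_⟩
    rfl
  choose m hm using h2
  have hinj : Function.Injective m := by
    intro l l' hll
    apply Subtype.ext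
    apply MonoidHom.ext
    intro x
    rw [← hm l x, ← hm l' x, hll]
  have h3 := Nat.card_le_card_of_injective m hinj
  rwa [Nat.card_eq_fintype_card, Fintype.card_coe] at h3

lemma card_fib_le (U : Subgroup P) (Λ : Finset (P →* ℂˣ)) (m : P →* ℂˣ)
    (h : ∀ l ∈ Λ, ∀ u ∈ U, l u = m u) : Λ.card ≤ U.index := by
  classical
  have h1 := card_triv_le U (Λ.image fun l => l * m⁻¹) (by
    intro l hl u hu
    obtain ⟨l', hl', rfl⟩ := Finset.mem_image.mp hl
    rw [MonoidHom.mul_apply, MonoidHom.inv_apply, h l' hl' u hu, mul_inv_cancel])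
  rwa [Finset.card_image_of_injective _ (mul_left_injective m⁻¹)] at h1

/-- two characters of prime order which are independent on a subgroup of small index -/
theorem exists_two (U : Subgroup P) {q : ℕ} (hq : q.Prime) (Λ : Finset (P →* ℂˣ))
    (hΛ : ∀ l ∈ Λ, ∀ x, l x ^ q = 1) (hc : q * U.index < Λ.card) :
    ∃ l₁ ∈ Λ, ∃ l₂ ∈ Λ, ∀ a b : ℕ, (∀ u ∈ U, l₁ u ^ a * l₂ u ^ b = 1) → q ∣ a ∧ q ∣ b := by
  classical
  have hpow : ∀ l ∈ Λ, ∀ (x : P) (a b : ℕ), a ≡ b [MOD q] → l x ^ a = l x ^ b := by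
    intro l hl x a b hab
    rw [← Nat.div_add_mod a q, ← Nat.div_add_mod b q, pow_add, pow_add, pow_mul, pow_mul,
      hΛ l hl x, one_pow, one_pow, hab]
  -- the first one
  obtain ⟨l₁, hl₁, h1⟩ : ∃ l ∈ Λ, ¬ ∀ u ∈ U, l u = 1 := by
    by_contra hcon
    push Not at hcon
    have h2 := card_triv_le U Λ hcon
    have h3 : U.index ≤ q * U.index := Nat.le_mul_of_pos_left _ hq.pos
    omega
  -- the second one
  obtain ⟨l₂, hl₂, h2⟩ : ∃ l ∈ Λ, ∀ j < q, ¬ ∀ u ∈ U, l u = l₁ u ^ j := by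
    by_contra hcon
    push Not at hcon
    have h3 : Λ ⊆ (Finset.range q).biUnion fun j => Λ.filter fun l => ∀ u ∈ U, l u = (l₁ ^ j) u := by
      intro l hl
      obtain ⟨j, hj, hjl⟩ := hcon l hl
      rw [Finset.mem_biUnion]
      exact ⟨j, Finset.mem_range.mpr hj, Finset.mem_filter.mpr ⟨hl, hjl⟩⟩
    have h4 : Λ.card ≤ ∑ j ∈ Finset.range q,
        (Λ.filter fun l => ∀ u ∈ U, l u = (l₁ ^ j) u).card :=
      (Finset.card_le_card h3).trans Finset.card_biUnion_le
    have h5 : ∑ j ∈ Finset.range q, (Λ.filter fun l => ∀ u ∈ U, l u = (l₁ ^ j) u).card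
        ≤ ∑ _j ∈ Finset.range q, U.index :=
      Finset.sum_le_sum fun j _ => card_fib_le U _ (l₁ ^ j)
        fun l hl => (Finset.mem_filter.mp hl).2
    rw [Finset.sum_const, Finset.card_range, smul_eq_mul] at h5
    omega
  refine ⟨l₁, hl₁, l₂, hl₂, fun a b hab => ?_⟩
  have hb : q ∣ b := by
    by_contra hb
    have hcop : b.Coprime q := ((Nat.Prime.coprime_iff_not_dvd hq).mpr hb).symm
    obtain ⟨b', -, hb'⟩ := Nat.exists_mul_mod_eq_one_of_coprime hcop hq.one_lt
    -- `l₂ = l₁ ^ (- a b')`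
    apply h2 (((q - 1) * (a * b')) % q) (Nat.mod_lt _ hq.pos)
    intro u hu
    have e1 : l₂ u = l₂ u ^ (b * b') := by
      conv_lhs => rw [← pow_one (l₂ u)]
      apply hpow l₂ hl₂
      change 1 % q = (b * b') % q
      rw [hb', Nat.mod_eq_of_lt hq.one_lt]
    have e2 : l₂ u ^ b = (l₁ u ^ a)⁻¹ := by
      rw [eq_inv_iff_mul_eq_one, mul_comm]
      exact hab u hu
    have e3 : l₁ u ^ (((q - 1) * (a * b')) % q) = l₁ u ^ ((q - 1) * (a * b')) :=
      hpow l₁ hl₁ u _ _ (Nat.mod_modEq _ _)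
    rw [e1, pow_mul, e2, e3, inv_pow, ← pow_mul, inv_eq_iff_mul_eq_one, ← pow_add]
    have e4 : a * b' + (q - 1) * (a * b') = q * (a * b') := by
      have h6 : 1 + (q - 1) = q := by have := hq.pos; omega
      calc a * b' + (q - 1) * (a * b') = (1 + (q - 1)) * (a * b') := by ring
        _ = _ := by rw [h6]
    rw [e4, pow_mul, hΛ l₁ hl₁ u, one_pow]
  refine ⟨?_, hb⟩
  by_contra ha
  have hcop : a.Coprime q := ((Nat.Prime.coprime_iff_not_dvd hq).mpr ha).symm
  obtain ⟨a', -, ha'⟩ := Nat.exists_mul_mod_eq_one_of_coprime hcop hq.one_lt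
  apply h1
  intro u hu
  have e1 : l₁ u = l₁ u ^ (a * a') := by
    conv_lhs => rw [← pow_one (l₁ u)]
    apply hpow l₁ hl₁
    change 1 % q = (a * a') % q
    rw [ha', Nat.mod_eq_of_lt hq.one_lt]
  have e2 : l₁ u ^ a = 1 := by
    have h3 := hab u hu
    obtain ⟨k, rfl⟩ := hb
    rwa [pow_mul, hΛ l₂ hl₂ u, one_pow, mul_one] at h3
  rw [e1, pow_mul, e2, one_pow]

end grp

/-- many characters of prime order of the units modulo a product of primes -/
theorem exists_many {q : ℕ} (hq : q.Prime) (t : ℕ) :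
    ∃ (n : ℕ) (_ : NeZero n) (Λ : Finset ((ZMod n)ˣ →* ℂˣ)), (∀ l ∈ Λ, ∀ x, l x ^ q = 1) ∧
      Λ.card = q ^ t := by
  classical
  obtain ⟨s, hs, hst⟩ := (Nat.infinite_setOfPred_prime_modEq_one hq.ne_zero).exists_subset_card_eq t
  let a : s → ℕ := fun p => p.1
  have hprime : ∀ p : s, (a p).Prime := fun p => (hs p.2).1
  have hmod : ∀ p : s, a p ≡ 1 [MOD q] := fun p => (hs p.2).2
  have hcop : Pairwise (Function.onFun Nat.Coprime a) := by
    intro p p' hpp
    exact (Nat.coprime_primes (hprime p) (hprime p')).mpr fun h => hpp (Subtype.ext h)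
  have hne : ∀ p : s, NeZero (a p) := fun p => ⟨(hprime p).ne_zero⟩
  have hfact : ∀ p : s, Fact (a p).Prime := fun p => ⟨hprime p⟩
  have hn : NeZero (∏ p, a p) := ⟨Finset.prod_ne_zero_iff.mpr fun p _ => (hprime p).ne_zero⟩
  let e : (ZMod (∏ p, a p))ˣ ≃* ((p : s) → (ZMod (a p))ˣ) :=
    (Units.mapEquiv (ZMod.prodEquivPi a hcop).toMulEquiv).trans MulEquiv.piUnits
  -- the characters modulo the primes
  have hω : ∀ p : s, ∃ w : (ZMod (a p))ˣ →* ℂˣ, (∀ x, w x ^ q = 1) ∧ ∃ g, w g ≠ 1 := by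
    intro p
    have hd : q ∣ Fintype.card (ZMod (a p)) - 1 := by
      rw [ZMod.card]
      exact (Nat.modEq_iff_dvd' (hprime p).pos).mp (hmod p).symm
    obtain ⟨χ, hχ⟩ := MulChar.exists_mulChar_orderOf (F := ZMod (a p)) (R := ℂ) hd
      (Complex.isPrimitiveRoot_exp q hq.ne_zero)
    refine ⟨χ.toUnitHom, fun x => ?_, ?_⟩
    · have h1 : χ ^ q = 1 := by rw [← hχ]; exact pow_orderOf_eq_one χ
      apply Units.ext
      rw [Units.val_pow_eq_pow_val, MulChar.coe_toUnitHom, ← MulChar.pow_apply_coe, h1,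
        MulChar.one_apply_coe]
      rfl
    · by_contra hcon
      push Not at hcon
      have h1 : χ = 1 := by
        apply MulChar.ext
        intro x
        rw [← MulChar.coe_toUnitHom, hcon x, MulChar.one_apply_coe]
        rfl
      rw [h1, orderOf_one] at hχ
      exact hq.one_lt.ne hχ
  choose w hw g hg using hω
  let F : (s → Fin q) → ((ZMod (∏ p, a p))ˣ →* ℂˣ) := fun f =>
    ∏ p, ((w p).comp (Pi.evalMonoidHom _ p)).comp e.toMonoidHom ^ (f p : ℕ)
  have hF : ∀ (f : s → Fin q) x, F f x = ∏ p, w p (e x p) ^ (f p : ℕ) := by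
    intro f x
    simp only [F, MonoidHom.finsetProd_apply]
    rfl
  have hinj : Function.Injective F := by
    intro f f' hff
    funext p₀
    have h1 : F f (e.symm (Pi.mulSingle p₀ (g p₀))) = F f' (e.symm (Pi.mulSingle p₀ (g p₀))) := by
      rw [hff]
    have h2 : ∀ f : s → Fin q, F f (e.symm (Pi.mulSingle p₀ (g p₀))) = w p₀ (g p₀) ^ (f p₀ : ℕ) := by
      intro f
      rw [hF, Finset.prod_eq_single p₀]
      · rw [MulEquiv.apply_symm_apply, Pi.mulSingle_eq_same]
      · intro p _ hp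
        rw [MulEquiv.apply_symm_apply, Pi.mulSingle_eq_of_ne hp, map_one, one_pow]
      · intro h
        exact absurd (Finset.mem_univ _) h
    rw [h2, h2] at h1
    have hqf : Fact q.Prime := ⟨hq⟩
    have h3 : orderOf (w p₀ (g p₀)) = q := orderOf_eq_prime (hw p₀ _) (hg p₀)
    have h4 := pow_injOn_Iio_orderOf (x := w p₀ (g p₀)) (by rw [h3]; exact (f p₀).2)
      (by rw [h3]; exact (f' p₀).2) h1
    exact Fin.ext h4
  refine ⟨_, hn, Finset.univ.image F, ?_, ?_⟩
  · intro l hl x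
    obtain ⟨f, -, rfl⟩ := Finset.mem_image.mp hl
    rw [hF, ← Finset.prod_pow]
    refine Finset.prod_eq_one fun p _ => ?_
    rw [← pow_mul, mul_comm, pow_mul, hw, one_pow]
  · rw [Finset.card_image_of_injective _ hinj, Finset.card_univ, Fintype.card_fun, Fintype.card_fin,
      Fintype.card_coe, hst]

end Pool.Agent.J4.H37.Stark
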