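import Mathlib
import Pool.Agent.J4.H37.Stark.Rank1
import Pool.Agent.J4.H37.Stark.Chain

/-!
# Independent characters of prime order of the Galois groups of number fields
-/

set_option autoImplicit false
set_option linter.unusedSectionVars false

namespace Pool.Agent.J4.H37.Stark

open NumberField Polynomial NumberField.ComplexEmbedding Pool.Agent.R389 Pool.Agent.K4H74
  Pool.Agent.K4H74.ST

/-- the cyclotomic character is surjective over `ℚ` -/
lemma autToPow_surj {N : Type} [Field N] [NumberField N] [IsGalois ℚ N] {n : ℕ} [NeZero n] {ζ : N}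
    (hζ : IsPrimitiveRoot ζ n) : Function.Surjective (hζ.autToPow ℚ) := by
  intro u
  have h1 : IsPrimitiveRoot (ζ ^ (u : ZMod n).val) n :=
    hζ.pow_of_coprime _ (ZMod.val_coe_unit_coprime u)
  have hn : 0 < n := Nat.pos_of_neZero n
  have h2 : cyclotomic n ℚ = minpoly ℚ ζ := cyclotomic_eq_minpoly_rat hζ hn
  have h3 : aeval (ζ ^ (u : ZMod n).val) (minpoly ℚ ζ) = 0 := by
    rw [← h2, aeval_def, eval₂_eq_eval_map, map_cyclotomic]
    exact (isRoot_cyclotomic_iff.mpr h1)
  obtain ⟨g, hg⟩ := minpoly.exists_algEquiv_of_root (K := ℚ) (L := N)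
    (Algebra.IsAlgebraic.isAlgebraic (R := ℚ) ζ) h3
  refine ⟨g⁻¹, ?_⟩
  apply Units.ext
  apply ZMod.val_injective
  apply hζ.pow_inj (ZMod.val_lt _) (ZMod.val_lt _)
  rw [hζ.autToPow_spec ℚ g⁻¹]
  have h4 : g⁻¹ (g (ζ ^ (u : ZMod n).val)) = ζ ^ (u : ZMod n).val := g.symm_apply_apply _
  rwa [hg] at h4

/-- restriction of scalars as a homomorphism -/
def rsHom (K N : Type) [Field K] [NumberField K] [Field N] [NumberField N] [Algebra K N] :
    (N ≃ₐ[K] N) →* (N ≃ₐ[ℚ] N) where
  toFun g := g.restrictScalars ℚ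
  map_one' := rfl
  map_mul' _ _ := rfl

lemma rsHom_inj (K N : Type) [Field K] [NumberField K] [Field N] [NumberField N] [Algebra K N] :
    Function.Injective (rsHom K N) := by
  intro g g' h
  ext x
  exact DFunLike.congr_fun h x

lemma index_rsHom (K N : Type) [Field K] [NumberField K] [Field N] [NumberField N] [Algebra K N]
    [IsGalois ℚ N] : (rsHom K N).range.index = Module.finrank ℚ K := by
  have htow : IsScalarTower ℚ K N := inferInstance
  have hgal : IsGalois K N := IsGalois.tower_top_of_isGalois ℚ K N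
  have hfin : FiniteDimensional K N := Module.Finite.of_restrictScalars_finite ℚ K N
  have h1 : Nat.card (N ≃ₐ[ℚ] N) = Module.finrank ℚ N := IsGalois.card_aut_eq_finrank ℚ N
  have h2 : Nat.card (N ≃ₐ[K] N) = Module.finrank K N := IsGalois.card_aut_eq_finrank K N
  have h3 : Nat.card (rsHom K N).range = Nat.card (N ≃ₐ[K] N) :=
    (Nat.card_congr (MonoidHom.ofInjective (rsHom_inj K N)).toEquiv).symm
  have h4 := (rsHom K N).range.index_mul_card
  rw [h3, h2, h1, ← Module.finrank_mul_finrank ℚ K N] at h4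
  exact Nat.eq_of_mul_eq_mul_right Module.finrank_pos h4

/-- **Two independent characters of order `q`.** -/
theorem exists_indep (K L : Type) [Field K] [NumberField K] [Field L] [NumberField L] [Algebra K L]
    [IsGalois K L] {q : ℕ} (hq : q.Prime) :
    ∃ (M : Type) (_ : Field M) (_ : NumberField M) (_ : Algebra K M) (_ : Algebra L M)
      (_ : IsScalarTower K L M) (_ : IsGalois K M) (η₁ η₂ : (M ≃ₐ[K] M) →* ℂˣ),
      η₁ ^ q = 1 ∧ η₂ ^ q = 1 ∧ ∀ a b : ℕ, η₁ ^ a * η₂ ^ b = 1 → q ∣ a ∧ q ∣ b := by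
  classical
  obtain ⟨N₁, i1, i2, i3, i4⟩ := Pool.Agent.K4H34.ST.exists_gal L
  let D := Module.finrank ℚ K
  obtain ⟨n, hn, Λ, hΛ, hc⟩ := exists_many hq (D + 1)
  obtain ⟨N, j1, j2, j3, j4, j5, j6, hN⟩ := Pool.Agent.K4H77.SL.exists_ext_poly ℚ N₁
    {cyclotomic n (𝓞 N₁)} (Set.finite_singleton _) (by
      intro f hf
      rw [Set.mem_singleton_iff.mp hf]
      exact cyclotomic.monic n _)
  have ej : j3 = DivisionRing.toRatAlgebra := Subsingleton.elim _ _
  subst ej
  obtain ⟨s, hs⟩ := hN _ (Set.mem_singleton _)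
  -- a primitive root
  obtain ⟨z, hz⟩ : ∃ z, z ∈ s := by
    apply Multiset.exists_mem_of_ne_zero
    rintro rfl
    rw [Multiset.map_zero, Multiset.prod_zero, map_cyclotomic] at hs
    have h1 : (cyclotomic n (𝓞 N)).natDegree = 0 := by rw [hs, natDegree_one]
    rw [natDegree_cyclotomic] at h1
    exact (Nat.totient_pos.mpr (Nat.pos_of_neZero n)).ne' h1
  have hz1 : (cyclotomic n (𝓞 N)).IsRoot z := by
    rw [map_cyclotomic] at hs
    rw [hs, IsRoot.def, eval_multiset_prod, Multiset.map_map, Multiset.prod_eq_zero]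
    rw [Multiset.mem_map]
    exact ⟨z, hz, by simp⟩
  have hz2 : (cyclotomic n N).IsRoot (z : N) := by
    rw [← map_cyclotomic n (algebraMap (𝓞 N) N)]
    exact hz1.map
  have hζ : IsPrimitiveRoot (z : N) n := isRoot_cyclotomic_iff.mp hz2
  let aL : Algebra L N := ((algebraMap N₁ N).comp (algebraMap L N₁)).toAlgebra
  let aK : Algebra K N := ((algebraMap L N).comp (algebraMap K L)).toAlgebra
  have htow : IsScalarTower K L N := IsScalarTower.of_algebraMap_eq fun x => rfl
  have htow2 : IsScalarTower ℚ K N := inferInstance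
  have hgal : IsGalois K N := IsGalois.tower_top_of_isGalois ℚ K N
  let U := ((rsHom K N).range).map (hζ.autToPow ℚ)
  have hU : U.index ≤ D := by
    have h1 := Subgroup.index_map_dvd (H := (rsHom K N).range) (autToPow_surj hζ)
    rw [index_rsHom] at h1
    exact Nat.le_of_dvd Module.finrank_pos h1
  have hcard : q * U.index < Λ.card := by
    rw [hc, pow_succ, mul_comm]
    apply Nat.mul_lt_mul_of_pos_right _ hq.pos
    exact lt_of_le_of_lt hU (Nat.lt_pow_self hq.one_lt)
  obtain ⟨l₁, hl₁, l₂, hl₂, hind⟩ := exists_two U hq Λ hΛ hcard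
  refine ⟨N, j1, j2, aK, aL, htow, hgal, (l₁.comp (hζ.autToPow ℚ)).comp (rsHom K N),
    (l₂.comp (hζ.autToPow ℚ)).comp (rsHom K N), ?_, ?_, ?_⟩
  · apply MonoidHom.ext
    intro g
    exact hΛ l₁ hl₁ _
  · apply MonoidHom.ext
    intro g
    exact hΛ l₂ hl₂ _
  · intro a b hab
    apply hind a b
    rintro u ⟨h, ⟨g, rfl⟩, rfl⟩
    exact DFunLike.congr_fun hab g

end Pool.Agent.J4.H37.Stark
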