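import Mathlib
import Pool.Agent.J4.H37.Stark.Rank2
import Pool.Agent.J4.H37.Stark.Field

/-!
# The number of the embeddings at which a linear character is trivial
-/

set_option autoImplicit false
set_option linter.unusedSectionVars false

namespace Pool.Agent.J4.H37.Stark

open NumberField NumberField.ComplexEmbedding Pool.Agent.R389 Pool.Agent.K4H74 Pool.Agent.K4H74.ST
  Pool.Agent.K4H77.SL Pool.Agent.K4H34 Pool.Agent.K4H74.SK Pool.Agent.K4H34.AL

/-- the linear character is trivial at the embedding `φ` of the base -/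
def TrivAt {K L : Type} [Field K] [Field L] [Algebra K L] (ψ : (L ≃ₐ[K] L) →* ℂˣ)
    (φ : K →+* ℂ) : Prop :=
  ∀ Φ : L →+* ℂ, Φ.comp (algebraMap K L) = φ → ∀ g : L ≃ₐ[K] L, IsConj Φ g → ψ g = 1

/-- the number of the embeddings at which the linear character is trivial -/
noncomputable def nTriv {K L : Type} [Field K] [Field L] [Algebra K L]
    (ψ : (L ≃ₐ[K] L) →* ℂˣ) : ℕ :=
  Nat.card {φ : K →+* ℂ // TrivAt ψ φ}

/-- the number of the infinite places `v` of the base such that the linear character is trivial on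
the decomposition groups of the places above `v` -/
noncomputable def rankL {K L : Type} [Field K] [Field L] [Algebra K L]
    (ψ : (L ≃ₐ[K] L) →* ℂˣ) : ℕ :=
  Nat.card {v : InfinitePlace K // ∀ w : InfinitePlace L, w.comap (algebraMap K L) = v →
    ∀ g : L ≃ₐ[K] L, w.comap (g : L →+* L) = w → ψ g = 1}

section basics

variable {K L : Type} [Field K] [NumberField K] [Field L] [NumberField L] [Algebra K L]
  [IsGalois K L]

lemma nTriv_infl {N : Type} [Field N] [NumberField N] [Algebra K N] [IsGalois K N] [Algebra L N]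
    [IsScalarTower K L N] (ψ : (L ≃ₐ[K] L) →* ℂˣ) :
    nTriv ψ ≤ nTriv (ψ.comp (AlgEquiv.restrictNormalHom L) : (N ≃ₐ[K] N) →* ℂˣ) := by
  unfold nTriv
  refine Nat.card_le_card_of_injective
    (fun φ : {φ : K →+* ℂ // TrivAt ψ φ} => (⟨φ.1, ?_⟩ : {φ : K →+* ℂ //
      TrivAt (ψ.comp (AlgEquiv.restrictNormalHom L) : (N ≃ₐ[K] N) →* ℂˣ) φ})) ?_
  · intro Φ hΦ g hg
    refine φ.2 (Φ.comp (algebraMap L N)) ?_ _ (isConj_res hg)
    rw [← hΦ]
    ext x
    change Φ (algebraMap L N (algebraMap K L x)) = Φ (algebraMap K N x)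
    rw [← IsScalarTower.algebraMap_apply K L N]
  · intro φ φ' h
    exact Subtype.ext (congrArg (fun z => z.1) h)

lemma nTriv_defl {E : Type} [Field E] [NumberField E] [Algebra K E] [IsGalois K E] [Algebra E L]
    [IsScalarTower K E L] (θ : (E ≃ₐ[K] E) →* ℂˣ) :
    nTriv (θ.comp (AlgEquiv.restrictNormalHom E) : (L ≃ₐ[K] L) →* ℂˣ) ≤ nTriv θ := by
  unfold nTriv
  refine Nat.card_le_card_of_injective
    (fun φ : {φ : K →+* ℂ // TrivAt (θ.comp (AlgEquiv.restrictNormalHom E) :
      (L ≃ₐ[K] L) →* ℂˣ) φ} => (⟨φ.1, ?_⟩ : {φ : K →+* ℂ // TrivAt θ φ})) ?_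
  · intro Φ hΦ g hg
    have hfinE : FiniteDimensional K E := Module.Finite.of_restrictScalars_finite ℚ K E
    have hfinL : FiniteDimensional K L := Module.Finite.of_restrictScalars_finite ℚ K L
    have halg : Algebra.IsAlgebraic E L := Algebra.IsAlgebraic.tower_top (K := K) E
    let Φ' : L →+* ℂ := ComplexEmbedding.lift L Φ
    have h4 : Φ'.comp (algebraMap E L) = Φ := ComplexEmbedding.lift_comp_algebraMap L Φ
    have h5 : Φ'.comp (algebraMap K L) = Φ.comp (algebraMap K E) := by
      rw [← h4]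
      ext x
      change Φ' (algebraMap K L x) = Φ' (algebraMap E L (algebraMap K E x))
      rw [← IsScalarTower.algebraMap_apply K E L]
    obtain ⟨c', hc'⟩ := exists_conj (K := K) (φ := Φ') (by rw [h5]; exact hg.isReal_comp)
    have h6 : IsConj (Φ'.comp (algebraMap E L)) (AlgEquiv.restrictNormalHom E c') := isConj_res hc'
    rw [h4] at h6
    have h7 := h6.ext hg
    rw [← h7]
    exact φ.2 Φ' (by rw [h5, hΦ]) c' hc'
  · intro φ φ' h
    exact Subtype.ext (congrArg (fun z => z.1) h)

lemma nTriv_le_rankL (θ : (L ≃ₐ[K] L) →* ℂˣ) : nTriv θ ≤ 2 * rankL θ := by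
  classical
  have h1 : ∀ φ : K →+* ℂ, TrivAt θ φ → ∀ w : InfinitePlace L,
      w.comap (algebraMap K L) = InfinitePlace.mk φ →
      ∀ g : L ≃ₐ[K] L, w.comap (g : L →+* L) = w → θ g = 1 := by
    intro φ hφ w hw g hg
    obtain ⟨Φ, rfl⟩ : ∃ Φ : L →+* ℂ, w = InfinitePlace.mk Φ := ⟨w.embedding, (w.mk_embedding).symm⟩
    rw [InfinitePlace.comap_mk, InfinitePlace.mk_eq_iff] at hg
    rw [InfinitePlace.comap_mk, InfinitePlace.mk_eq_iff] at hw
    rcases hg with hg | hg
    · have h2 : g = 1 := by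
        ext x
        apply Φ.injective
        exact RingHom.congr_fun hg x
      rw [h2, map_one]
    · -- `conjugate (Φ ∘ g) = Φ`
      have h2 : IsConj Φ g := by
        change conjugate Φ = Φ.comp (g : L →+* L)
        have h3 := congrArg conjugate hg
        rw [ComplexEmbedding.involutive_conjugate] at h3
        exact h3.symm
      have h3 : IsReal (Φ.comp (algebraMap K L)) := h2.isReal_comp
      refine hφ Φ ?_ g h2
      rcases hw with hw | hw
      · exact hw
      · rw [← hw]
        exact h3.symm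
  let X := {φ : K →+* ℂ // TrivAt θ φ}
  let Y := {v : InfinitePlace K // ∀ w : InfinitePlace L, w.comap (algebraMap K L) = v →
    ∀ g : L ≃ₐ[K] L, w.comap (g : L →+* L) = w → θ g = 1}
  let F : X → Y × Bool := fun φ => (⟨InfinitePlace.mk φ.1, h1 φ.1 φ.2⟩,
    decide ((InfinitePlace.mk φ.1).embedding = φ.1))
  have hF : Function.Injective F := by
    intro φ φ' h
    have e1 : InfinitePlace.mk φ.1 = InfinitePlace.mk φ'.1 :=
      congrArg (fun z => z.1.1) h
    have e2 : decide ((InfinitePlace.mk φ.1).embedding = φ.1)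
        = decide ((InfinitePlace.mk φ'.1).embedding = φ'.1) := congrArg (fun z => z.2) h
    rw [decide_eq_decide] at e2
    apply Subtype.ext
    by_cases h3 : (InfinitePlace.mk φ.1).embedding = φ.1
    · rw [← h3, ← e2.mp h3, e1]
    · have h4 : ¬ (InfinitePlace.mk φ'.1).embedding = φ'.1 := fun h5 => h3 (e2.mpr h5)
      have h5 := (InfinitePlace.embedding_mk_eq φ.1).resolve_left h3
      have h6 := (InfinitePlace.embedding_mk_eq φ'.1).resolve_left h4
      rw [e1, h6] at h5
      exact (ComplexEmbedding.involutive_conjugate K).injective h5.symm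
  have h2 := Nat.card_le_card_of_injective F hF
  rw [Nat.card_prod, Nat.card_eq_fintype_card (α := Bool), Fintype.card_bool, mul_comm] at h2
  exact h2

/-- the characters which are nowhere trivial are totally odd -/
lemma odd_of_nTriv {ψ : (L ≃ₐ[K] L) →* ℂˣ} (h : nTriv ψ = 0) :
    IsTotallyReal K ∧ ∀ (φ : L →+* ℂ) (c : L ≃ₐ[K] L), IsConj φ c → ψ c = -1 := by
  have hfin : Finite {φ : K →+* ℂ // TrivAt ψ φ} := inferInstance
  have h1 : IsEmpty {φ : K →+* ℂ // TrivAt ψ φ} := (Nat.card_eq_zero.mp h).resolve_right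
    (fun h2 => h2.not_finite hfin)
  have h2 : ∀ φ : K →+* ℂ, ¬ TrivAt ψ φ := fun φ hφ => h1.false ⟨φ, hφ⟩
  refine ⟨⟨fun v => ?_⟩, ?_⟩
  · have h3 := h2 v.embedding
    unfold TrivAt at h3
    push Not at h3
    obtain ⟨Φ, hΦ, g, hg, -⟩ := h3
    rw [InfinitePlace.isReal_iff, ← hΦ]
    exact hg.isReal_comp
  · intro Φ c hc
    have h3 := h2 (Φ.comp (algebraMap K L))
    unfold TrivAt at h3
    push Not at h3
    obtain ⟨Φ', hΦ', g, hg, hψ⟩ := h3
    have h4 := conj_same ψ hg hc hΦ'
    rw [h4] at hψ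
    have h5 : ψ c * ψ c = 1 := by rw [← map_mul, isConj_sq hc, map_one]
    have h6 : ((ψ c : ℂˣ) : ℂ) * ((ψ c : ℂˣ) : ℂ) = 1 := by
      rw [← Units.val_mul, h5, Units.val_one]
    rcases mul_self_eq_one_iff.mp h6 with h7 | h7
    · exact absurd (Units.ext h7) hψ
    · exact Units.ext (by rw [h7]; simp)

end basics

/-- the restriction of a linear character to a subextension -/
def resF {K M : Type} [Field K] [Field M] [Algebra K M] (F : IntermediateField K M)
    (ψ : (M ≃ₐ[K] M) →* ℂˣ) : (M ≃ₐ[F] M) →* ℂˣ where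
  toFun g := ψ (g.restrictScalars K)
  map_one' := map_one ψ
  map_mul' g h := map_mul ψ (g.restrictScalars K) (h.restrictScalars K)

section restr

variable {K M : Type} [Field K] [NumberField K] [Field M] [NumberField M] [Algebra K M]
  [IsGalois K M]

lemma nTriv_resF (F : IntermediateField K M) (ψ : (M ≃ₐ[K] M) →* ℂˣ) :
    Module.finrank K F * nTriv ψ ≤ nTriv (resF F ψ) := by
  classical
  have hfinM : FiniteDimensional K M := Module.Finite.of_restrictScalars_finite ℚ K M
  have hfin : Finite {φ : K →+* ℂ // TrivAt ψ φ} := inferInstance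
  have hfin2 : Finite {φ : F →+* ℂ // TrivAt (resF F ψ) φ} := inferInstance
  -- the extensions of an embedding
  have hex : ∀ φ : K →+* ℂ, ∃ e : Fin (Module.finrank K F) → (F →+* ℂ), Function.Injective e ∧
      ∀ i, (e i).comp (algebraMap K F) = φ := by
    intro φ
    let _ : Algebra K ℂ := φ.toAlgebra
    have h1 : Fintype.card (F →ₐ[K] ℂ) = Module.finrank K F := AlgHom.card K F ℂ
    let e := (Fintype.equivFinOfCardEq h1).symm
    refine ⟨fun i => (e i).toRingHom, ?_, fun i => ?_⟩
    · intro i j hij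
      apply e.injective
      ext x
      exact RingHom.congr_fun hij x
    · exact (e i).comp_algebraMap
  choose e he he' using hex
  let G : Fin (Module.finrank K F) × {φ : K →+* ℂ // TrivAt ψ φ} →
      {φ : F →+* ℂ // TrivAt (resF F ψ) φ} := fun p => ⟨e p.2.1 p.1, by
    intro Φ hΦ g hg
    refine p.2.2 Φ ?_ (g.restrictScalars K) ?_
    · rw [← he' p.2.1 p.1, ← hΦ]
      rfl
    · ext x
      exact RingHom.congr_fun hg x⟩
  have hG : Function.Injective G := by
    rintro ⟨i, φ⟩ ⟨j, φ'⟩ h
    have h1 : e φ.1 i = e φ'.1 j := congrArg (fun z => z.1) h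
    have h2 : φ = φ' := by
      apply Subtype.ext
      rw [← he' φ.1 i, h1, he' φ'.1 j]
    subst h2
    rw [he φ.1 h1]
  have h2 := Nat.card_le_card_of_injective G hG
  rw [Nat.card_prod, Nat.card_eq_fintype_card (α := Fin _), Fintype.card_fin] at h2
  exact h2

/-- the degree of the field of a character of prime order -/
lemma finrank_ker (η : (M ≃ₐ[K] M) →* ℂˣ) {q : ℕ} (hq : q.Prime) (hη : η ^ q = 1) (hη1 : η ≠ 1) :
    Module.finrank K (IntermediateField.fixedField η.ker) = q := by
  have hfinM : FiniteDimensional K M := Module.Finite.of_restrictScalars_finite ℚ K M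
  have hidx : η.ker.index = q := by
    rw [Subgroup.index_ker]
    have h1 : η.range ≤ rootsOfUnity q ℂ := by
      rintro _ ⟨g, rfl⟩
      rw [mem_rootsOfUnity]
      exact DFunLike.congr_fun hη g
    have hne : NeZero q := ⟨hq.ne_zero⟩
    have h2 : Nat.card η.range ∣ q := by
      have h3 := Subgroup.card_dvd_of_le h1
      rwa [Complex.card_rootsOfUnity q] at h3
    rcases (Nat.dvd_prime hq).mp h2 with h3 | h3
    · exfalso
      apply hη1
      have h4 : η.range = ⊥ := Subgroup.eq_bot_of_card_eq _ h3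
      exact MonoidHom.range_eq_bot_iff.mp h4
    · exact h3
  have h1 := IntermediateField.finrank_fixedField_eq_card (F := K) (E := M) η.ker
  have h2 := Module.finrank_mul_finrank K (IntermediateField.fixedField η.ker) M
  have h3 := η.ker.index_mul_card
  rw [h1, ← IsGalois.card_aut_eq_finrank K M, ← h3, hidx] at h2
  exact Nat.eq_of_mul_eq_mul_right Nat.card_pos h2

/-- **the product over a line** -/
lemma prod_line {C : Type} [CommGroup C] (A : ArtinInvariant C) (ψ η : (M ≃ₐ[K] M) →* ℂˣ)
    {q : ℕ} (hq : q.Prime) (hη : η ^ q = 1) (hη1 : η ≠ 1) :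
    ∏ j ∈ Finset.range q, A.val K M (lc (ψ * η ^ j)) =
      A.val (IntermediateField.fixedField η.ker) M (lc (resF _ ψ)) := by
  have hfinL : FiniteDimensional K M := Module.Finite.of_restrictScalars_finite ℚ K M
  have h1 := (val_sum A (Finset.range q) (fun j => lc (ψ * η ^ j))
    (fun j _ => IsChar.lc _)).2
  rw [← h1, ← ind_ker ψ η hq hη hη1, ind_fixed]
  have h2 : (fun g : M ≃ₐ[IntermediateField.fixedField η.ker] M =>
      (fun h : η.ker => ((ψ (h : M ≃ₐ[K] M) : ℂˣ) : ℂ))
      ((IntermediateField.subgroupEquivAlgEquiv η.ker).symm g)) =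
        lc (resF (IntermediateField.fixedField η.ker) ψ) := rfl
  rw [h2, A.val_ind K (IntermediateField.fixedField η.ker) M _ (IsChar.lc _)]

end restr

end Pool.Agent.J4.H37.Stark
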