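import Mathlib
import Pool.Agent.J4.H37.Stark.Rank3

/-!
# Inductive invariants which are trivial on the linear characters of large rank
-/

set_option autoImplicit false
set_option linter.unusedSectionVars false

namespace Pool.Agent.J4.H37.Stark

open NumberField NumberField.ComplexEmbedding Pool.Agent.R389 Pool.Agent.K4H74 Pool.Agent.K4H74.ST
  Pool.Agent.K4H77.SL Pool.Agent.K4H34 Pool.Agent.K4H74.SK Pool.Agent.K4H34.AL

variable {C : Type} [CommGroup C]

/-- the invariant is trivial on the linear characters which are trivial at `n` embeddings -/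
def Big (A : ArtinInvariant C) (n : ℕ) : Prop :=
  ∀ (K L : Type) [Field K] [NumberField K] [Field L] [NumberField L] [Algebra K L] [IsGalois K L]
    (ψ : (L ≃ₐ[K] L) →* ℂˣ), n ≤ nTriv ψ → A.val K L (lc ψ) = 1

/-- a character which is trivial on the kernel of a character of prime order is a power of it -/
lemma eq_pow_of_ker {G : Type} [Group G] {η θ : G →* ℂˣ} {q : ℕ} (hq : q.Prime) (hη : η ^ q = 1)
    (hη1 : η ≠ 1) (hθ : θ ^ q = 1) (h : ∀ g, η g = 1 → θ g = 1) : ∃ b : ℕ, θ = η ^ b := by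
  have hex : ∃ g, η g ≠ 1 := by
    by_contra hcon
    push Not at hcon
    exact hη1 (MonoidHom.ext hcon)
  obtain ⟨g, hg⟩ := hex
  have hqf : Fact q.Prime := ⟨hq⟩
  have hne : NeZero q := ⟨hq.ne_zero⟩
  have hord : orderOf (η g) = q :=
    orderOf_eq_prime (by rw [← MonoidHom.pow_apply, hη]; rfl) hg
  have hprim : IsPrimitiveRoot ((η g : ℂˣ) : ℂ) q := by
    rw [IsPrimitiveRoot.coe_units_iff]
    rw [← hord]
    exact IsPrimitiveRoot.orderOf _
  have hval : ∀ (ξ : G →* ℂˣ), ξ ^ q = 1 → ∀ x, ((ξ x : ℂˣ) : ℂ) ^ q = 1 := by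
    intro ξ hξ x
    rw [← Units.val_pow_eq_pow_val, ← MonoidHom.pow_apply, hξ]
    rfl
  obtain ⟨b, -, hb⟩ := hprim.eq_pow_of_pow_eq_one (hval θ hθ g)
  refine ⟨b, MonoidHom.ext fun x => ?_⟩
  obtain ⟨c, -, hc⟩ := hprim.eq_pow_of_pow_eq_one (hval η hη x)
  have hc' : η x = η g ^ c := Units.ext (by rw [Units.val_pow_eq_pow_val, hc])
  have hb' : θ g = η g ^ b := Units.ext (by rw [Units.val_pow_eq_pow_val, hb])
  have h1 : η (x * (g ^ c)⁻¹) = 1 := by
    rw [map_mul, map_inv, map_pow, hc', mul_inv_cancel]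
  have h2 := h _ h1
  rw [map_mul, map_inv, map_pow, mul_inv_eq_one] at h2
  rw [h2, hb', MonoidHom.pow_apply, hc', ← pow_mul, ← pow_mul, mul_comm]

section step

variable {K M : Type} [Field K] [NumberField K] [Field M] [NumberField M] [Algebra K M]
  [IsGalois K M]

lemma line_one {A : ArtinInvariant C} {n : ℕ} (hA : Big A (2 * n)) {ψ : (M ≃ₐ[K] M) →* ℂˣ}
    (hψ : n ≤ nTriv ψ) {η : (M ≃ₐ[K] M) →* ℂˣ} {q : ℕ} (hq : q.Prime) (hη : η ^ q = 1)
    (hη1 : η ≠ 1) : ∏ j ∈ Finset.range q, A.val K M (lc (ψ * η ^ j)) = 1 := by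
  rw [prod_line A ψ η hq hη hη1]
  apply hA
  refine le_trans ?_ (nTriv_resF _ ψ)
  rw [finrank_ker η hq hη hη1]
  exact Nat.mul_le_mul hq.two_le hψ

lemma hpow_ne {G : Type} [Group G] {η : G →* ℂˣ} {g : G} (h : η g ≠ 1) : η ≠ 1 := by
  rintro rfl
  exact h rfl

lemma plane_one {A : ArtinInvariant C} {n : ℕ} (hA : Big A (2 * n)) {ψ : (M ≃ₐ[K] M) →* ℂˣ}
    (hψ : n ≤ nTriv ψ) {η₁ η₂ : (M ≃ₐ[K] M) →* ℂˣ} {q : ℕ} (hq : q.Prime) (h1 : η₁ ^ q = 1)
    (h2 : η₂ ^ q = 1) (hind : ∀ a b : ℕ, η₁ ^ a * η₂ ^ b = 1 → q ∣ a ∧ q ∣ b) :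
    ∏ i ∈ Finset.range q, ∏ j ∈ Finset.range q, A.val K M (lc (ψ * η₁ ^ i * η₂ ^ j)) = 1 := by
  have h2ne : η₂ ≠ 1 := by
    rintro rfl
    have h3 := (hind 0 1 (by
      apply MonoidHom.ext
      intro g
      simp)).2
    exact hq.one_lt.ne' (Nat.dvd_one.mp h3)
  have h12 : ∃ g, η₂ g = 1 ∧ η₁ g ≠ 1 := by
    by_contra hcon
    push Not at hcon
    obtain ⟨b, hb⟩ := eq_pow_of_ker hq h2 h2ne h1 hcon
    have h3 : η₁ ^ 1 * η₂ ^ ((q - 1) * b) = 1 := by
      apply MonoidHom.ext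
      intro g
      have h5 : η₂ g ^ q = 1 := DFunLike.congr_fun h2 g
      rw [MonoidHom.mul_apply, MonoidHom.pow_apply, MonoidHom.pow_apply, hb,
        MonoidHom.pow_apply, MonoidHom.one_apply, pow_one, ← pow_add]
      have h4 : b + (q - 1) * b = q * b := by
        have h6 : 1 + (q - 1) = q := by have := hq.pos; omega
        calc b + (q - 1) * b = (1 + (q - 1)) * b := by ring
          _ = _ := by rw [h6]
      rw [h4, pow_mul, h5, one_pow]
    exact hq.one_lt.ne' (Nat.dvd_one.mp (hind 1 _ h3).1)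
  obtain ⟨g, hg2, hg1⟩ := h12
  set F := IntermediateField.fixedField η₂.ker with hF
  have h3 : ∀ i ∈ Finset.range q, ∏ j ∈ Finset.range q, A.val K M (lc (ψ * η₁ ^ i * η₂ ^ j))
      = A.val F M (lc (resF F ψ * (resF F η₁) ^ i)) := by
    intro i _
    rw [prod_line A (ψ * η₁ ^ i) η₂ hq h2 h2ne]
    rfl
  rw [Finset.prod_congr rfl h3]
  have hle : n ≤ nTriv (resF F ψ) := by
    refine le_trans ?_ (nTriv_resF F ψ)
    rw [hF, finrank_ker η₂ hq h2 h2ne]
    calc n ≤ nTriv ψ := hψ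
      _ = 1 * nTriv ψ := (one_mul _).symm
      _ ≤ q * nTriv ψ := Nat.mul_le_mul_right _ hq.one_le
  have hr1 : resF F η₁ ^ q = 1 := by
    apply MonoidHom.ext
    intro x
    exact DFunLike.congr_fun h1 (x.restrictScalars K)
  have hfinL : FiniteDimensional K M := Module.Finite.of_restrictScalars_finite ℚ K M
  have hr2 : resF F η₁ ≠ 1 := by
    apply hpow_ne (g := IntermediateField.subgroupEquivAlgEquiv η₂.ker ⟨g, hg2⟩)
    have h4 : ((IntermediateField.subgroupEquivAlgEquiv η₂.ker ⟨g, hg2⟩).restrictScalars K)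
        = g := by
      ext x
      rfl
    change η₁ (AlgEquiv.restrictScalars K _) ≠ 1
    rw [h4]
    exact hg1
  exact line_one hA hle hq hr1 hr2

lemma val_sq {A : ArtinInvariant C} {n : ℕ} (hA : Big A (2 * n)) {ψ : (M ≃ₐ[K] M) →* ℂˣ}
    (hψ : n ≤ nTriv ψ) {η₁ η₂ : (M ≃ₐ[K] M) →* ℂˣ} (h1 : η₁ ^ 2 = 1)
    (h2 : η₂ ^ 2 = 1) (hind : ∀ a b : ℕ, η₁ ^ a * η₂ ^ b = 1 → 2 ∣ a ∧ 2 ∣ b) :
    A.val K M (lc ψ) ^ 2 = 1 := by
  have hq := Nat.prime_two
  have n10 : η₁ ≠ 1 := by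
    intro h
    have := (hind 1 0 (by
      apply MonoidHom.ext
      intro g
      simp [h])).1
    omega
  have n01 : η₂ ≠ 1 := by
    intro h
    have := (hind 0 1 (by
      apply MonoidHom.ext
      intro g
      simp [h])).2
    omega
  have n11 : η₁ * η₂ ≠ 1 := by
    intro h
    have := (hind 1 1 (by
      apply MonoidHom.ext
      intro g
      have := DFunLike.congr_fun h g
      simpa using this)).2
    omega
  have e11 : (η₁ * η₂) ^ 2 = 1 := by
    rw [hmul_pow, h1, h2, hmul_one]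
  have l10 := line_one hA hψ hq h1 n10
  have l01 := line_one hA hψ hq h2 n01
  have l11 := line_one hA hψ hq e11 n11
  have l := plane_one hA hψ hq h1 h2 hind
  set f : ℕ → ℕ → C := fun i j => A.val K M (lc (ψ * η₁ ^ i * η₂ ^ j)) with hf
  have a0 : A.val K M (lc ψ) = f 0 0 := by
    rw [hf]
    congr 2
    apply MonoidHom.ext
    intro g
    simp
  have hline : ∀ (i j : ℕ) (η : (M ≃ₐ[K] M) →* ℂˣ) (k : ℕ),
      (∀ g, η g ^ k = η₁ g ^ i * η₂ g ^ j) → A.val K M (lc (ψ * η ^ k)) = f i j := by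
    intro i j η k h
    rw [hf]
    congr 2
    apply MonoidHom.ext
    intro g
    rw [MonoidHom.mul_apply, MonoidHom.pow_apply, h, MonoidHom.mul_apply, MonoidHom.mul_apply,
      MonoidHom.pow_apply, MonoidHom.pow_apply, mul_assoc]
  rw [Finset.prod_range_succ, Finset.prod_range_one, hline 0 0 η₁ 0 (by simp),
    hline 1 0 η₁ 1 (by simp)] at l10
  rw [Finset.prod_range_succ, Finset.prod_range_one, hline 0 0 η₂ 0 (by simp),
    hline 0 1 η₂ 1 (by simp)] at l01
  rw [Finset.prod_range_succ, Finset.prod_range_one, hline 0 0 _ 0 (by simp),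
    hline 1 1 _ 1 (by simp)] at l11
  rw [Finset.prod_range_succ, Finset.prod_range_one, Finset.prod_range_succ,
    Finset.prod_range_one, Finset.prod_range_succ, Finset.prod_range_one] at l
  change f 0 0 * f 0 1 * (f 1 0 * f 1 1) = 1 at l
  rw [a0]
  have e : f 0 0 ^ 2 * (f 0 0 * f 0 1 * (f 1 0 * f 1 1))
      = (f 0 0 * f 1 0) * (f 0 0 * f 0 1) * (f 0 0 * f 1 1) := by
    rw [pow_two]
    ac_rfl
  rw [l, l10, l01, l11, mul_one, mul_one, mul_one] at e
  exact e

lemma val_cube {A : ArtinInvariant C} {n : ℕ} (hA : Big A (2 * n)) {ψ : (M ≃ₐ[K] M) →* ℂˣ}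
    (hψ : n ≤ nTriv ψ) {η₁ η₂ : (M ≃ₐ[K] M) →* ℂˣ} (h1 : η₁ ^ 3 = 1)
    (h2 : η₂ ^ 3 = 1) (hind : ∀ a b : ℕ, η₁ ^ a * η₂ ^ b = 1 → 3 ∣ a ∧ 3 ∣ b) :
    A.val K M (lc ψ) ^ 3 = 1 := by
  have hq := Nat.prime_three
  have n10 : η₁ ≠ 1 := by
    intro h
    have := (hind 1 0 (by
      apply MonoidHom.ext
      intro g
      simp [h])).1
    omega
  have n01 : η₂ ≠ 1 := by
    intro h
    have := (hind 0 1 (by
      apply MonoidHom.ext
      intro g
      simp [h])).2
    omega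
  have n11 : η₁ * η₂ ≠ 1 := by
    intro h
    have := (hind 1 1 (by
      apply MonoidHom.ext
      intro g
      have := DFunLike.congr_fun h g
      simpa using this)).2
    omega
  have n12 : η₁ * η₂ ^ 2 ≠ 1 := by
    intro h
    have := (hind 1 2 (by
      apply MonoidHom.ext
      intro g
      have := DFunLike.congr_fun h g
      simpa using this)).2
    omega
  have e11 : (η₁ * η₂) ^ 3 = 1 := by
    rw [hmul_pow, h1, h2, hmul_one]
  have e12 : (η₁ * η₂ ^ 2) ^ 3 = 1 := by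
    rw [hmul_pow, h1, ← hpow_mul, mul_comm 2 3, hpow_mul, h2, hone_pow, hmul_one]
  have l10 := line_one hA hψ hq h1 n10
  have l01 := line_one hA hψ hq h2 n01
  have l11 := line_one hA hψ hq e11 n11
  have l12 := line_one hA hψ hq e12 n12
  have l := plane_one hA hψ hq h1 h2 hind
  have h1' : ∀ g, η₁ g ^ 3 = 1 := fun g => DFunLike.congr_fun h1 g
  have h2' : ∀ g, η₂ g ^ 3 = 1 := fun g => DFunLike.congr_fun h2 g
  set f : ℕ → ℕ → C := fun i j => A.val K M (lc (ψ * η₁ ^ i * η₂ ^ j)) with hf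
  have a0 : A.val K M (lc ψ) = f 0 0 := by
    rw [hf]
    congr 2
    apply MonoidHom.ext
    intro g
    simp
  have hline : ∀ (i j : ℕ) (η : (M ≃ₐ[K] M) →* ℂˣ) (k : ℕ),
      (∀ g, η g ^ k = η₁ g ^ i * η₂ g ^ j) → A.val K M (lc (ψ * η ^ k)) = f i j := by
    intro i j η k h
    rw [hf]
    congr 2
    apply MonoidHom.ext
    intro g
    rw [MonoidHom.mul_apply, MonoidHom.pow_apply, h, MonoidHom.mul_apply, MonoidHom.mul_apply,
      MonoidHom.pow_apply, MonoidHom.pow_apply, mul_assoc]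
  rw [Finset.prod_range_succ, Finset.prod_range_succ, Finset.prod_range_one,
    hline 0 0 η₁ 0 (by simp), hline 1 0 η₁ 1 (by simp), hline 2 0 η₁ 2 (by simp)] at l10
  rw [Finset.prod_range_succ, Finset.prod_range_succ, Finset.prod_range_one,
    hline 0 0 η₂ 0 (by simp), hline 0 1 η₂ 1 (by simp), hline 0 2 η₂ 2 (by simp)] at l01
  rw [Finset.prod_range_succ, Finset.prod_range_succ, Finset.prod_range_one,
    hline 0 0 _ 0 (by simp), hline 1 1 _ 1 (by simp), hline 2 2 _ 2 (by simp [mul_pow])] at l11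
  rw [Finset.prod_range_succ, Finset.prod_range_succ, Finset.prod_range_one,
    hline 0 0 _ 0 (by simp), hline 1 2 _ 1 (by simp), hline 2 1 _ 2 (by
      intro g
      rw [MonoidHom.mul_apply, mul_pow, MonoidHom.pow_apply, ← pow_mul, pow_one,
        show 2 * 2 = 3 + 1 from rfl, pow_add, h2', one_mul, pow_one])] at l12
  simp only [Finset.prod_range_succ, Finset.prod_range_zero, one_mul] at l
  change f 0 0 * f 0 1 * f 0 2 * (f 1 0 * f 1 1 * f 1 2) * (f 2 0 * f 2 1 * f 2 2) = 1 at l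
  rw [a0]
  have e : f 0 0 ^ 3 * (f 0 0 * f 0 1 * f 0 2 * (f 1 0 * f 1 1 * f 1 2)
      * (f 2 0 * f 2 1 * f 2 2)) = (f 0 0 * f 1 0 * f 2 0) * (f 0 0 * f 0 1 * f 0 2)
        * (f 0 0 * f 1 1 * f 2 2) * (f 0 0 * f 1 2 * f 2 1) := by
    rw [pow_succ, pow_two]
    ac_rfl
  rw [l, l10, l01, l11, l12, mul_one, mul_one, mul_one, mul_one] at e
  exact e

end step

/-- **descent of the rank** -/
theorem big_step {A : ArtinInvariant C} {n : ℕ} (hA : Big A (2 * n)) : Big A n := by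
  intro K L _ _ _ _ _ _ ψ hψ
  have key : ∀ q : ℕ, (q = 2 ∨ q = 3) → A.val K L (lc ψ) ^ q = 1 := by
    rintro q hq
    have hqp : q.Prime := by
      rcases hq with rfl | rfl
      · exact Nat.prime_two
      · exact Nat.prime_three
    obtain ⟨M, i1, i2, i3, i4, i5, i6, η₁, η₂, h1, h2, hind⟩ := exists_indep K L hqp
    have h3 : n ≤ nTriv (ψ.comp (AlgEquiv.restrictNormalHom L) : (M ≃ₐ[K] M) →* ℂˣ) :=
      hψ.trans (nTriv_infl ψ)
    rw [← val_lin_res (N := M)]
    rcases hq with rfl | rfl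
    · exact val_sq hA h3 h1 h2 hind
    · exact val_cube hA h3 h1 h2 hind
  have h2 := key 2 (Or.inl rfl)
  have h3 := key 3 (Or.inr rfl)
  rw [pow_succ, h2, one_mul] at h3
  exact h3

theorem big_all {A : ArtinInvariant C} : ∀ (k n : ℕ), Big A (2 ^ k * n) → Big A n := by
  intro k
  induction k with
  | zero =>
    intro n h
    rwa [pow_zero, one_mul] at h
  | succ k ih =>
    intro n h
    apply ih
    apply big_step
    rwa [pow_succ, mul_comm (2 ^ k) 2, mul_assoc] at h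

/-- **linear characters** -/
theorem lin_of_rank {A : ArtinInvariant C} (R : ℕ) (hO : TrivOdd A)
    (hA : ∀ (K L : Type) [Field K] [NumberField K] [Field L] [NumberField L] [Algebra K L]
      [IsGalois K L] (θ : (L ≃ₐ[K] L) →* ℂˣ), Function.Injective θ → R ≤ rankL θ →
        A.val K L (lc θ) = 1)
    (K L : Type) [Field K] [NumberField K] [Field L] [NumberField L] [Algebra K L]
    [IsGalois K L] (ψ : (L ≃ₐ[K] L) →* ℂˣ) : A.val K L (lc ψ) = 1 := by
  have h1 : Big A (2 * R) := by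
    intro K L _ _ _ _ _ _ ψ hψ
    obtain ⟨E, i1, i2, i3, i4, i5, i6, θ, hθ, hψθ⟩ := lin_red K L ψ
    have h1 : ψ = θ.comp (AlgEquiv.restrictNormalHom E) := by
      ext g
      rw [← hψθ]
      rfl
    rw [h1, val_lin_res]
    apply hA K E θ hθ
    have h2 := nTriv_defl (L := L) θ
    rw [← h1] at h2
    have h3 := nTriv_le_rankL θ
    omega
  have h2 : Big A (2 ^ (2 * R) * 1) := by
    intro K L _ _ _ _ _ _ ψ hψ
    apply h1 K L ψ
    have h3 : 2 * R < 2 ^ (2 * R) := Nat.lt_two_pow_self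
    omega
  have h3 := big_all _ _ h2
  by_cases h4 : nTriv ψ = 0
  · obtain ⟨h5, h6⟩ := odd_of_nTriv h4
    exact hO K L h5 ψ h6
  · exact h3 K L ψ (Nat.one_le_iff_ne_zero.mpr h4)

/-- **all characters** -/
theorem main_rank {A : ArtinInvariant C} (R : ℕ) (hO : TrivOdd A)
    (hA : ∀ (K L : Type) [Field K] [NumberField K] [Field L] [NumberField L] [Algebra K L]
      [IsGalois K L] (θ : (L ≃ₐ[K] L) →* ℂˣ), Function.Injective θ → R ≤ rankL θ →
        A.val K L (lc θ) = 1)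
    (K L : Type) [Field K] [NumberField K] [Field L] [NumberField L] [Algebra K L]
    [IsGalois K L] {χ : (L ≃ₐ[K] L) → ℂ} (hχ : IsChar χ) : A.val K L χ = 1 := by
  have h1 := brauer_red (A := A) (K := K) (L := L) (⊥ : Subgroup C) (fun U ψ => by
    rw [Subgroup.mem_bot]
    exact lin_of_rank R hO hA _ _ ψ) hχ
  exact Subgroup.mem_bot.mp h1

end Pool.Agent.J4.H37.Stark
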